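import Mathlib

/-!
# Three elements of the cyclic group of the elliptic quadric and three affine conditions
-/

set_option autoImplicit false

namespace Pool.Agent.H966R3.C33

open Module

variable {p : ℕ} [Fact p.Prime] {K : Type} [Field K] [Algebra (ZMod p) K]

/-- elements with `x ^ (p ^ 2 + 1)` in the prime field -/
def InH (p : ℕ) {K : Type} [Field K] (x : K) : Prop :=
  x ≠ 0 ∧ (x ^ (p ^ 2 + 1)) ^ p = x ^ (p ^ 2 + 1)

theorem mem_prime_of_pow_eq [CharP K p] {x : K} (h : x ^ p = x) :
    ∃ b : ZMod p, algebraMap (ZMod p) K b = x := by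
  have h1 : x ∈ (⊥ : Subfield K) := (Subfield.mem_bot_iff_pow_eq_self (F := K) (p := p)).2 h
  have h2 : (⊥ : Subfield K) ≤ (algebraMap (ZMod p) K).fieldRange := bot_le
  exact h2 h1

/-- An affine line through two elements of `H` that are not proportional over the prime field
contains no third element of `H`. -/
theorem lemC [CharP K p] {x y : K} (hx : InH p x) (hy : InH p y) {α : ZMod p} (h0 : α ≠ 0)
    (h1 : α ≠ 1) (hz : InH p ((1 - α) • x + α • y)) :
    ∃ b : ZMod p, x = b • y := by
  set φ : K →+* K := frobenius K p with hφ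
  have hφx : ∀ z : K, φ z = z ^ p := fun z => frobenius_def p z
  have hφa : ∀ b : ZMod p, φ (algebraMap (ZMod p) K b) = algebraMap (ZMod p) K b := by
    intro b
    rw [hφx, ← map_pow, ZMod.pow_card]
  have hpow : ∀ z : K, z ^ (p ^ 2 + 1) = φ (φ z) * z := by
    intro z
    rw [hφx, hφx, ← pow_mul, pow_succ, sq]
  obtain ⟨hx0, hx1⟩ := hx
  obtain ⟨hy0, hy1⟩ := hy
  obtain ⟨hz0, hz1⟩ := hz
  rw [← hφx, hpow] at hx1 hy1 hz1
  set a : K := algebraMap (ZMod p) K α with ha
  have ha0 : a ≠ 0 := by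
    rw [ha]; exact (map_ne_zero _).2 h0
  have ha1 : 1 - a ≠ 0 := by
    rw [ha, ← map_one (algebraMap (ZMod p) K), ← map_sub]
    exact (map_ne_zero _).2 (sub_ne_zero.2 (Ne.symm h1))
  have hzz : (1 - α) • x + α • y = (1 - a) * x + a * y := by
    rw [Algebra.smul_def, Algebra.smul_def, map_sub, map_one]
  rw [hzz] at hz1
  have hφaa : φ a = a := hφa α
  -- the mixed term is fixed by `φ`
  have hmix : φ (x * φ (φ y) + y * φ (φ x)) = x * φ (φ y) + y * φ (φ x) := by
    have e1 : φ (φ ((1 - a) * x + a * y)) * ((1 - a) * x + a * y) =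
        (1 - a) ^ 2 * (φ (φ x) * x) + a ^ 2 * (φ (φ y) * y) +
          a * (1 - a) * (x * φ (φ y) + y * φ (φ x)) := by
      simp only [map_add, map_mul, map_sub, map_one, hφaa]
      ring
    rw [e1] at hz1
    have e2 : φ ((1 - a) ^ 2 * (φ (φ x) * x) + a ^ 2 * (φ (φ y) * y) +
          a * (1 - a) * (x * φ (φ y) + y * φ (φ x))) =
        (1 - a) ^ 2 * φ (φ (φ x) * x) + a ^ 2 * φ (φ (φ y) * y) +
          a * (1 - a) * φ (x * φ (φ y) + y * φ (φ x)) := by
      simp only [map_add, map_mul, map_sub, map_one, map_pow, hφaa]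
    rw [e2, hx1, hy1] at hz1
    have e3 : a * (1 - a) * φ (x * φ (φ y) + y * φ (φ x)) =
        a * (1 - a) * (x * φ (φ y) + y * φ (φ x)) := add_left_cancel hz1
    exact mul_left_cancel₀ (mul_ne_zero ha0 ha1) e3
  -- divide by `y`
  set t : K := x / y with ht
  have hxt : x = t * y := by rw [ht]; field_simp
  have hyy : φ (φ y) * y ≠ 0 := mul_ne_zero ((map_ne_zero _).2 ((map_ne_zero _).2 hy0)) hy0
  have hsum : φ (t + φ (φ t)) = t + φ (φ t) := by
    have e1 : x * φ (φ y) + y * φ (φ x) = (φ (φ y) * y) * (t + φ (φ t)) := by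
      rw [hxt]; simp only [map_mul]; ring
    rw [e1, map_mul, hy1] at hmix
    exact mul_left_cancel₀ hyy hmix
  have hprod : φ (t * φ (φ t)) = t * φ (φ t) := by
    have e1 : φ (φ x) * x = (φ (φ y) * y) * (t * φ (φ t)) := by
      rw [hxt]; simp only [map_mul]; ring
    rw [e1, map_mul, hy1] at hx1
    exact mul_left_cancel₀ hyy hx1
  have hroot : (φ t - t) * (φ t - φ (φ t)) = 0 := by
    have e1 : φ t ^ 2 - (t + φ (φ t)) * φ t + t * φ (φ t) = 0 := by
      have e2 : t ^ 2 - (t + φ (φ t)) * t + t * φ (φ t) = 0 := by ring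
      have e3 := congrArg φ e2
      rw [map_zero, map_add, map_sub, map_pow, map_mul φ (t + φ (φ t)) t, hsum, hprod] at e3
      exact e3
    linear_combination e1
  have hfix : φ t = t := by
    rcases mul_eq_zero.1 hroot with h | h
    · exact sub_eq_zero.1 h
    · have h2 : φ (φ t) = φ t := (sub_eq_zero.1 h).symm
      exact φ.injective h2
  obtain ⟨b, hb⟩ := mem_prime_of_pow_eq (p := p) (by rw [← hφx]; exact hfix : t ^ p = t)
  exact ⟨b, by rw [Algebra.smul_def, hb, ← hxt]⟩

theorem lemD [CharP K p] {x y z : K} (hx : InH p x) (hy : InH p y) (hz : InH p z)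
    (ℓ : K →ₗ[ZMod p] ZMod p) (h1 : ℓ x = 1) (h2 : ℓ y = 1) (hxy : x ≠ y) (hxz : x ≠ z)
    (hyz : y ≠ z) (α : ZMod p) : z ≠ (1 - α) • x + α • y := by
  intro h
  by_cases h0 : α = 0
  · subst h0
    apply hxz
    rw [h]; simp
  by_cases h1' : α = 1
  · subst h1'
    apply hyz
    rw [h]; simp
  rw [h] at hz
  obtain ⟨b, hb⟩ := lemC hx hy h0 h1' hz
  have : ℓ x = b * ℓ y := by rw [hb, map_smul, smul_eq_mul]
  rw [h1, h2, mul_one] at this
  rw [← this, one_smul] at hb
  exact hxy hb

theorem lin_indep [CharP K p] {x : Fin 3 → K} (hx : ∀ i, InH p (x i))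
    (hxi : Function.Injective x) (ℓ : K →ₗ[ZMod p] ZMod p) (h1 : ∀ i, ℓ (x i) = 1) :
    LinearIndependent (ZMod p) x := by
  rw [Fintype.linearIndependent_iff]
  intro c hc
  rw [Fin.sum_univ_three] at hc
  have hs : c 0 + c 1 + c 2 = 0 := by
    have := congrArg ℓ hc
    simp only [map_add, map_smul, h1, smul_eq_mul, mul_one, map_zero] at this
    exact this
  have h01 : x 0 ≠ x 1 := fun h => by simpa using hxi h
  have h02 : x 0 ≠ x 2 := fun h => by simpa using hxi h
  have h12 : x 1 ≠ x 2 := fun h => by simpa using hxi h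
  have hc2 : c 2 = 0 := by
    by_contra h2
    have := lemD (hx 0) (hx 1) (hx 2) ℓ (h1 0) (h1 1) h01 h02 h12 (-(c 1) / c 2)
    apply this
    have e1 : 1 - -(c 1) / c 2 = -(c 0) / c 2 := by
      field_simp
      linear_combination hs
    rw [e1]
    have e2 : c 2 • x 2 = -(c 0) • x 0 + -(c 1) • x 1 := by
      rw [neg_smul, neg_smul]
      linear_combination (exp := 1) hc
    have e3 : x 2 = (c 2)⁻¹ • (c 2 • x 2) := by rw [smul_smul, inv_mul_cancel₀ h2, one_smul]
    rw [e3, e2, smul_add, smul_smul, smul_smul]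
    congr 2 <;> ring
  have hc1 : c 1 = 0 := by
    by_contra h1'
    rw [hc2, zero_smul, add_zero] at hc
    rw [hc2, add_zero] at hs
    have hc0 : c 0 = -c 1 := by linear_combination hs
    rw [hc0, neg_smul] at hc
    have : c 1 • (x 1 - x 0) = 0 := by rw [smul_sub]; linear_combination (exp := 1) hc
    rcases smul_eq_zero.1 this with h | h
    · exact h1' h
    · exact h01 (sub_eq_zero.1 h).symm
  have hc0 : c 0 = 0 := by rw [hc2, hc1, add_zero, add_zero] at hs; exact hs
  intro i
  fin_cases i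
  · exact hc0
  · exact hc1
  · exact hc2

/-- Main algebraic fact: no three distinct `x i` and three distinct `k j` in `H` satisfy
`Tr (γ * x i * k j) = 1` for all `i, j`. -/
theorem no_three [CharP K p] [FiniteDimensional (ZMod p) K] [Algebra.IsSeparable (ZMod p) K]
    (hfr : finrank (ZMod p) K = 4) (γ : K)
    {x k : Fin 3 → K} (hx : ∀ i, InH p (x i)) (hk : ∀ i, InH p (k i))
    (hxi : Function.Injective x) (hki : Function.Injective k) :
    ¬ ∀ i j, Algebra.trace (ZMod p) K (γ * (x i * k j)) = 1 := by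
  intro h
  have hγ : γ ≠ 0 := by
    rintro rfl
    have := h 0 0
    rw [zero_mul, map_zero] at this
    exact zero_ne_one this
  -- functionals
  let ℓx : K →ₗ[ZMod p] ZMod p := (Algebra.trace (ZMod p) K).comp (LinearMap.mulLeft (ZMod p) (γ * k 0))
  have hℓx : ∀ i, ℓx (x i) = 1 := by
    intro i
    show Algebra.trace (ZMod p) K (γ * k 0 * x i) = 1
    rw [← h i 0]
    congr 1
    ring
  have hindx := lin_indep hx hxi ℓx hℓx
  let ℓk : K →ₗ[ZMod p] ZMod p := (Algebra.trace (ZMod p) K).comp (LinearMap.mulLeft (ZMod p) (γ * x 0))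
  have hℓk : ∀ j, ℓk (k j) = 1 := by
    intro j
    show Algebra.trace (ZMod p) K (γ * x 0 * k j) = 1
    rw [← h 0 j]
    congr 1
    ring
  -- the span of `γ * x i`
  have hindγ : LinearIndependent (ZMod p) (fun i => γ * x i) := by
    have := hindx.map' (LinearMap.mulLeft (ZMod p) γ)
      (LinearMap.ker_eq_bot.2 (mul_right_injective₀ hγ))
    exact this
  set W := Submodule.span (ZMod p) (Set.range fun i => γ * x i) with hW
  have hWfr : finrank (ZMod p) W = 3 := by
    rw [hW, finrank_span_eq_card hindγ, Fintype.card_fin]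
  set B := Algebra.traceForm (ZMod p) K with hB
  have hBn : B.Nondegenerate := traceForm_nondegenerate (ZMod p) K
  have hO : finrank (ZMod p) (B.orthogonal W) = 1 := by
    rw [LinearMap.BilinForm.finrank_orthogonal hBn, hfr, hWfr]
  have hmem : ∀ j, k j - k 0 ∈ B.orthogonal W := by
    intro j
    rw [LinearMap.BilinForm.mem_orthogonal_iff]
    intro w hw
    rw [hW] at hw
    induction hw using Submodule.span_induction with
    | mem w hw =>
      obtain ⟨i, rfl⟩ := hw
      show B (γ * x i) (k j - k 0) = 0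
      rw [hB, Algebra.traceForm_apply, mul_sub, map_sub, mul_assoc, mul_assoc, h i j, h i 0, sub_self]
    | zero => simp
    | add u v _ _ hu hv =>
      rw [map_add, LinearMap.add_apply, hu, hv, add_zero]
    | smul c u _ hu =>
      rw [map_smul, LinearMap.smul_apply, hu, smul_zero]
  have hk01 : k 0 ≠ k 1 := fun h => by simpa using hki h
  have hk02 : k 0 ≠ k 2 := fun h => by simpa using hki h
  have hk12 : k 1 ≠ k 2 := fun h => by simpa using hki h
  have hne : (⟨k 1 - k 0, hmem 1⟩ : B.orthogonal W) ≠ 0 := by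
    intro h0
    have := congrArg Subtype.val h0
    exact hk01 (sub_eq_zero.1 this).symm
  obtain ⟨α, hα⟩ := (finrank_eq_one_iff_of_nonzero' _ hne).1 hO ⟨k 2 - k 0, hmem 2⟩
  have hα' : α • (k 1 - k 0) = k 2 - k 0 := congrArg Subtype.val hα
  refine lemD (hk 0) (hk 1) (hk 2) ℓk (hℓk 0) (hℓk 1) hk01 hk02 hk12 α ?_
  rw [sub_smul, one_smul]
  have : k 2 = k 0 + α • (k 1 - k 0) := by rw [hα']; ring
  rw [this, smul_sub]
  ring

end Pool.Agent.H966R3.C33
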