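import Mathlib

/-!
# `C_3[3]`-sets of integers: definitions
-/

set_option autoImplicit false

namespace Pool.Agent.H966R3.C33

/-- `A ⊆ Γ` is a `C_h[g]`-set: no `h`-element set `X` has `g` distinct translates inside `A`. -/
def IsCSet {Γ : Type*} [AddCommGroup Γ] (h g : ℕ) (A : Set Γ) : Prop :=
  ¬ ∃ X K : Finset Γ, X.card = h ∧ K.card = g ∧ ∀ k ∈ K, ∀ x ∈ X, x + k ∈ A

/-- `F(n)`: the largest size of a `C_3[3]`-set in `{1, …, n}`. -/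
noncomputable def F (n : ℕ) : ℕ :=
  sSup {a | ∃ A : Finset ℤ, A ⊆ Finset.Icc 1 (n : ℤ) ∧ IsCSet 3 3 (A : Set ℤ) ∧ A.card = a}

theorem F_bdd (n : ℕ) :
    BddAbove {a | ∃ A : Finset ℤ, A ⊆ Finset.Icc 1 (n : ℤ) ∧ IsCSet 3 3 (A : Set ℤ) ∧
      A.card = a} := by
  refine ⟨n, ?_⟩
  rintro a ⟨A, hA, -, rfl⟩
  have := Finset.card_le_card hA
  simpa using this

theorem le_F {n : ℕ} {A : Finset ℤ} (hA : A ⊆ Finset.Icc 1 (n : ℤ)) (h : IsCSet 3 3 (A : Set ℤ)) :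
    A.card ≤ F n :=
  le_csSup (F_bdd n) ⟨A, hA, h, rfl⟩

theorem F_le {n b : ℕ} (h : ∀ A : Finset ℤ, A ⊆ Finset.Icc 1 (n : ℤ) → IsCSet 3 3 (A : Set ℤ) →
    A.card ≤ b) : F n ≤ b := by
  apply csSup_le
  · refine ⟨0, ∅, by simp, ?_, rfl⟩
    rintro ⟨X, K, hX, hK, hXK⟩
    have hX' : X.Nonempty := Finset.card_pos.1 (by omega)
    have hK' : K.Nonempty := Finset.card_pos.1 (by omega)
    obtain ⟨x, hx⟩ := hX'
    obtain ⟨k, hk⟩ := hK'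
    simpa using hXK k hk x hx
  · rintro a ⟨A, hA, hC, rfl⟩
    exact h A hA hC

end Pool.Agent.H966R3.C33
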