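import Mathlib
import Pool.Agent.H966R3.C33Defs
import Pool.Agent.H966R3.C33Alg

/-!
# A large `C_3[3]`-set in the integers from the cyclic group of the elliptic quadric
-/

set_option autoImplicit false

namespace Pool.Agent.H966R3.C33

open Module Finset

theorem count_trace (p : ℕ) [Fact p.Prime] {K : Type} [Field K] [Fintype K] [DecidableEq K]
    [Algebra (ZMod p) K]
    [FiniteDimensional (ZMod p) K] [Algebra.IsSeparable (ZMod p) K]
    (hfr : Fintype.card K = p ^ 4) {z : K} (hz : z ≠ 0) :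
    (univ.filter fun γ : K => Algebra.trace (ZMod p) K (γ * z) = 1).card = p ^ 3 := by
  obtain ⟨w₀, hw₀⟩ := Algebra.trace_surjective (ZMod p) K 1
  set g₀ : K := w₀ * z⁻¹ with hg₀
  have hg : Algebra.trace (ZMod p) K (g₀ * z) = 1 := by
    rw [hg₀, mul_assoc, inv_mul_cancel₀ hz, mul_one, hw₀]
  set f : K → ZMod p := fun γ => Algebra.trace (ZMod p) K (γ * z) with hf
  have hfib : ∀ c : ZMod p, (univ.filter fun γ : K => f γ = c).card =
      (univ.filter fun γ : K => f γ = 1).card := by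
    intro c
    refine Finset.card_bij (fun γ _ => γ + (1 - c) • g₀) ?_ ?_ ?_
    · intro γ hγ
      simp only [mem_filter, mem_univ, true_and, hf] at hγ ⊢
      rw [add_mul, map_add, hγ, smul_mul_assoc, map_smul, hg, smul_eq_mul]
      ring
    · intro γ _ γ' _ h
      exact add_right_cancel h
    · intro γ hγ
      simp only [mem_filter, mem_univ, true_and, hf] at hγ
      refine ⟨γ - (1 - c) • g₀, ?_, by simp⟩
      simp only [mem_filter, mem_univ, true_and, hf]
      rw [sub_mul, map_sub, hγ, smul_mul_assoc, map_smul, hg, smul_eq_mul]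
      ring
  have htot : (univ : Finset K).card = ∑ c : ZMod p, (univ.filter fun γ : K => f γ = c).card :=
    Finset.card_eq_sum_card_fiberwise (fun _ _ => mem_univ _)
  rw [Finset.sum_congr rfl fun c _ => hfib c, Finset.sum_const, Finset.card_univ,
    Finset.card_univ, ZMod.card, smul_eq_mul, hfr] at htot
  have hp : 0 < p := (Fact.out : p.Prime).pos
  have : p * p ^ 3 = p * (univ.filter fun γ : K => f γ = 1).card := by
    rw [← htot]; ring
  exact (Nat.eq_of_mul_eq_mul_left hp this).symm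

/-- For every prime `p` there is a `C_3[3]`-set of at least `p ^ 2 - p` integers in
`{1, …, (p ^ 2 + 1) (p - 1)}`. -/
theorem exists_set (p : ℕ) [hp : Fact p.Prime] :
    ∃ A : Finset ℤ, A ⊆ Finset.Icc 1 (((p ^ 2 + 1) * (p - 1) : ℕ) : ℤ) ∧
      IsCSet 3 3 (A : Set ℤ) ∧ p ^ 2 - p ≤ A.card := by
  classical
  set K := GaloisField p 4 with hK
  haveI : Finite K := inferInstance
  letI : Fintype K := Fintype.ofFinite K
  have hcardK : Fintype.card K = p ^ 4 := by
    rw [← Nat.card_eq_fintype_card]; exact GaloisField.card p 4 (by norm_num)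
  have hfr : finrank (ZMod p) K = 4 := GaloisField.finrank p (by norm_num)
  have hp2 : 2 ≤ p := hp.out.two_le
  set N : ℕ := (p ^ 2 + 1) * (p - 1) with hN
  have hNpos : 0 < N := by
    rw [hN]; exact Nat.mul_pos (by positivity) (by omega)
  have hfac : p ^ 4 - 1 = (p + 1) * N := by
    obtain ⟨q, rfl⟩ : ∃ q, p = q + 1 := ⟨p - 1, by omega⟩
    rw [hN]
    simp only [Nat.add_sub_cancel]
    have : (q + 1) ^ 4 = (q + 1 + 1) * (((q + 1) ^ 2 + 1) * q) + 1 := by ring
    omega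
  obtain ⟨g, hg⟩ := IsCyclic.exists_generator (α := Kˣ)
  have hordg : orderOf g = p ^ 4 - 1 := by
    rw [orderOf_eq_card_of_forall_mem_zpowers hg, Nat.card_eq_fintype_card, Fintype.card_units,
      hcardK]
  set ζ : Kˣ := g ^ (p + 1) with hζ
  have hordζ : orderOf ζ = N := by
    rw [hζ, orderOf_pow_of_dvd (by omega) (by rw [hordg, hfac]; exact Dvd.intro _ rfl), hordg,
      hfac, Nat.mul_div_cancel_left _ (by omega)]
  have hζN : ζ ^ N = 1 := by rw [← hordζ]; exact pow_orderOf_eq_one ζ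
  -- powers of `ζ` lie in `H`
  have hH : ∀ i : ℤ, InH p ((ζ ^ i : Kˣ) : K) := by
    intro i
    refine ⟨Units.ne_zero _, ?_⟩
    have h1 : (ζ ^ i) ^ N = 1 := by
      rw [← zpow_natCast, ← zpow_mul, mul_comm, zpow_mul, zpow_natCast, hζN, one_zpow]
    have h2 : ((ζ ^ i : Kˣ) : K) ^ N = 1 := by
      rw [← Units.val_pow_eq_pow_val, h1, Units.val_one]
    have h3 : (((ζ ^ i : Kˣ) : K) ^ (p ^ 2 + 1)) ^ p =
        ((ζ ^ i : Kˣ) : K) ^ (p ^ 2 + 1) * ((ζ ^ i : Kˣ) : K) ^ N := by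
      rw [← pow_mul, ← pow_add]
      congr 1
      obtain ⟨q, rfl⟩ : ∃ q, p = q + 1 := ⟨p - 1, by omega⟩
      rw [hN]
      simp only [Nat.add_sub_cancel]
      ring
    rw [h3, h2, mul_one]
  -- averaging over `γ`
  set cnt : K → ℕ := fun γ => ((Finset.Icc (1 : ℤ) N).filter
    fun i => Algebra.trace (ZMod p) K (γ * ((ζ ^ i : Kˣ) : K)) = 1).card with hcnt
  have hsum : ∑ γ : K, cnt γ = N * p ^ 3 := by
    have e1 : ∑ γ : K, cnt γ = ∑ i ∈ Finset.Icc (1 : ℤ) N,
        (univ.filter fun γ : K => Algebra.trace (ZMod p) K (γ * ((ζ ^ i : Kˣ) : K)) = 1).card := by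
      simp only [hcnt, Finset.card_filter]
      rw [Finset.sum_comm]
    rw [e1, Finset.sum_congr rfl fun i _ => count_trace p hcardK (Units.ne_zero (ζ ^ i)),
      Finset.sum_const, Int.card_Icc, smul_eq_mul]
    congr 1
    omega
  obtain ⟨γ, hγ⟩ : ∃ γ : K, p ^ 2 - p ≤ cnt γ := by
    by_contra hcon
    push Not at hcon
    have h1 : ∑ γ : K, cnt γ ≤ ∑ _γ : K, (p ^ 2 - p - 1) :=
      Finset.sum_le_sum fun γ _ => by have := hcon γ; omega
    rw [hsum, Finset.sum_const, Finset.card_univ, hcardK, smul_eq_mul] at h1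
    obtain ⟨q, rfl⟩ : ∃ q, p = q + 2 := ⟨p - 2, by omega⟩
    rw [hN] at h1
    have e1 : (q + 2) ^ 2 - (q + 2) - 1 = q ^ 2 + 3 * q + 1 := by
      have : (q + 2) ^ 2 = q ^ 2 + 4 * q + 4 := by ring
      omega
    have e2 : q + 2 - 1 = q + 1 := by omega
    rw [e1, e2] at h1
    have h2 : (q + 2) ^ 4 * (q ^ 2 + 3 * q + 1) <
        ((q + 2) ^ 2 + 1) * (q + 1) * (q + 2) ^ 3 := by
      have h3 : (q + 2) * (q ^ 2 + 3 * q + 1) < ((q + 2) ^ 2 + 1) * (q + 1) := by ring_nf; omega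
      calc (q + 2) ^ 4 * (q ^ 2 + 3 * q + 1) = (q + 2) * (q ^ 2 + 3 * q + 1) * (q + 2) ^ 3 := by
            ring
        _ < _ := Nat.mul_lt_mul_of_pos_right h3 (by positivity)
    omega
  refine ⟨(Finset.Icc (1 : ℤ) N).filter
    fun i => Algebra.trace (ZMod p) K (γ * ((ζ ^ i : Kˣ) : K)) = 1, Finset.filter_subset _ _, ?_, hγ⟩
  rintro ⟨X, L, hX, hL, hXL⟩
  -- enumerate
  set ex := X.equivFinOfCardEq hX with hex
  set el := L.equivFinOfCardEq hL with hel
  have hmem : ∀ k ∈ L, ∀ x ∈ X, 1 ≤ x + k ∧ x + k ≤ N ∧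
      Algebra.trace (ZMod p) K (γ * ((ζ ^ (x + k) : Kˣ) : K)) = 1 := by
    intro k hk x hx
    have := hXL k hk x hx
    rw [Finset.mem_coe, Finset.mem_filter, Finset.mem_Icc] at this
    exact ⟨this.1.1, this.1.2, this.2⟩
  have hinj : ∀ a b : ℤ, |a - b| < N → ((ζ ^ a : Kˣ) : K) = ((ζ ^ b : Kˣ) : K) → a = b := by
    intro a b hab h
    have h1 : ζ ^ a = ζ ^ b := Units.ext h
    have h2 : ζ ^ (a - b) = 1 := by rw [zpow_sub, h1, mul_inv_cancel]
    have h3 : (orderOf ζ : ℤ) ∣ a - b := orderOf_dvd_iff_zpow_eq_one.2 h2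
    rw [hordζ] at h3
    have := Int.eq_zero_of_abs_lt_dvd h3 hab
    omega
  have hXne : L.Nonempty := Finset.card_pos.1 (by omega)
  have hLne : X.Nonempty := Finset.card_pos.1 (by omega)
  obtain ⟨k₀, hk₀⟩ := hXne
  obtain ⟨x₀, hx₀⟩ := hLne
  refine no_three (p := p) hfr γ (x := fun i => ((ζ ^ ((ex.symm i : X) : ℤ) : Kˣ) : K))
    (k := fun j => ((ζ ^ ((el.symm j : L) : ℤ) : Kˣ) : K)) (fun i => hH _) (fun j => hH _)
    ?_ ?_ ?_
  · intro i j hij
    have h1 := hmem k₀ hk₀ _ (ex.symm i).2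
    have h2 := hmem k₀ hk₀ _ (ex.symm j).2
    have h3 := hinj _ _ (by rw [abs_lt]; constructor <;> omega) hij
    exact ex.symm.injective (Subtype.ext h3)
  · intro i j hij
    have h1 := hmem _ (el.symm i).2 x₀ hx₀
    have h2 := hmem _ (el.symm j).2 x₀ hx₀
    have h3 := hinj _ _ (by rw [abs_lt]; constructor <;> omega) hij
    exact el.symm.injective (Subtype.ext h3)
  · intro i j
    have h1 := (hmem _ (el.symm j).2 _ (ex.symm i).2).2.2
    rw [zpow_add, Units.val_mul] at h1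
    exact h1

end Pool.Agent.H966R3.C33
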