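import Mathlib
import Pool.Agent.H966R3.C33Defs

/-!
# Bipartite graphs without `K_{3,3}` all of whose links are `C_4`-free: the sharp upper bound
-/

set_option autoImplicit false

namespace Pool.Agent.H966R3.C33

open Finset

section bip

variable {R M : Type} [Fintype R] [Fintype M] [DecidableEq R] [DecidableEq M]
  (E : R → M → Prop) [∀ x c, Decidable (E x c)]

set_option linter.unusedSectionVars false

/-- no `K_{3,3}` -/
def NoK33 : Prop :=
  ∀ x y z : R, ∀ c d e : M, x ≠ y → x ≠ z → y ≠ z → c ≠ d → c ≠ e → d ≠ e →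
    ¬ (E x c ∧ E x d ∧ E x e ∧ E y c ∧ E y d ∧ E y e ∧ E z c ∧ E z d ∧ E z e)

/-- the indicator of the relation -/
def ind (x : R) (c : M) : ℝ := if E x c then 1 else 0

theorem ind_nonneg (x : R) (c : M) : 0 ≤ ind E x c := by
  unfold ind; split_ifs <;> norm_num

theorem ind_sq (x : R) (c : M) : ind E x c * ind E x c = ind E x c := by
  unfold ind; split_ifs <;> norm_num

theorem real_aux {F q P : ℝ} (hq : 0 ≤ q) (hP : 0 ≤ P) (h : F ^ 2 ≤ q * (F + P ^ 2)) :
    F ≤ q + Real.sqrt q * P := by
  by_contra hc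
  push Not at hc
  have h1 : 0 ≤ Real.sqrt q * P := by positivity
  have h2 : Real.sqrt q ^ 2 = q := Real.sq_sqrt hq
  have h3 : Real.sqrt q * P < F - q := by linarith
  have hF : 0 < F := by linarith
  have h4 : (Real.sqrt q * P) * (Real.sqrt q * P) < F * (F - q) := by
    have : Real.sqrt q * P ≤ F := by linarith
    calc (Real.sqrt q * P) * (Real.sqrt q * P) ≤ F * (Real.sqrt q * P) :=
          mul_le_mul_of_nonneg_right this h1
      _ < F * (F - q) := mul_lt_mul_of_pos_left h3 hF
  have h5 : (Real.sqrt q * P) * (Real.sqrt q * P) = q * P ^ 2 := by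
    calc (Real.sqrt q * P) * (Real.sqrt q * P) = Real.sqrt q ^ 2 * P ^ 2 := by ring
      _ = q * P ^ 2 := by rw [h2]
  nlinarith

/-- the number of edges in the link of an edge `(x, c)` -/
theorem link_le (h : NoK33 E) (x : R) (c : M) (hxc : E x c) (a : ℕ)
    (ha : (univ.filter fun d => E x d).card = a) :
    ∑ d ∈ univ.filter (fun d => d ≠ c ∧ E x d), ∑ y ∈ univ.filter (fun y => y ≠ x ∧ E y c),
      ind E y d ≤ a + Real.sqrt a * ((univ.filter fun y => y ≠ x ∧ E y c).card : ℝ) := by
  set Q := univ.filter (fun d => d ≠ c ∧ E x d) with hQ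
  set P := univ.filter (fun y => y ≠ x ∧ E y c) with hP
  set f : M → ℝ := fun d => ∑ y ∈ P, ind E y d with hf
  have hQa : (Q.card : ℝ) ≤ a := by
    have : Q ⊆ univ.filter fun d => E x d := by
      intro d hd
      simp only [hQ, mem_filter, mem_univ, true_and] at hd ⊢
      exact hd.2
    have := Finset.card_le_card this
    rw [ha] at this
    exact_mod_cast this
  -- sum of squares
  have hsq : ∑ d ∈ Q, f d ^ 2 ≤ (∑ d ∈ Q, f d) + (P.card : ℝ) ^ 2 := by
    have e1 : ∑ d ∈ Q, f d ^ 2 = ∑ y ∈ P, ∑ z ∈ P, ∑ d ∈ Q, ind E y d * ind E z d := by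
      have : ∀ d ∈ Q, f d ^ 2 = ∑ y ∈ P, ∑ z ∈ P, ind E y d * ind E z d := by
        intro d _
        rw [sq, hf]
        simp only
        rw [Finset.sum_mul_sum]
      rw [Finset.sum_congr rfl this, Finset.sum_comm]
      refine Finset.sum_congr rfl fun y _ => ?_
      rw [Finset.sum_comm]
    have e2 : ∀ y ∈ P, ∑ z ∈ P, ∑ d ∈ Q, ind E y d * ind E z d ≤
        (∑ d ∈ Q, ind E y d) + P.card := by
      intro y hy
      have hz : ∀ z ∈ P, ∑ d ∈ Q, ind E y d * ind E z d ≤
          (if z = y then ∑ d ∈ Q, ind E y d else 0) + 1 := by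
        intro z hz
        by_cases hzy : z = y
        · subst hzy
          rw [if_pos rfl]
          have : ∑ d ∈ Q, ind E z d * ind E z d = ∑ d ∈ Q, ind E z d :=
            Finset.sum_congr rfl fun d _ => ind_sq E z d
          rw [this]
          linarith
        · rw [if_neg hzy, zero_add]
          have h1 : ∑ d ∈ Q, ind E y d * ind E z d =
              ((Q.filter fun d => E y d ∧ E z d).card : ℝ) := by
            rw [Finset.card_filter]
            push_cast
            refine Finset.sum_congr rfl fun d _ => ?_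
            unfold ind
            by_cases h1 : E y d <;> by_cases h2 : E z d <;> simp [h1, h2]
          rw [h1]
          have h2 : (Q.filter fun d => E y d ∧ E z d).card ≤ 1 := by
            rw [Finset.card_le_one]
            intro d hd e he
            by_contra hde
            simp only [hQ, mem_filter, mem_univ, true_and] at hd he
            simp only [hP, mem_filter, mem_univ, true_and] at hy hz
            exact h x y z c d e (Ne.symm hy.1) (Ne.symm hz.1) (Ne.symm hzy)
              (Ne.symm hd.1.1) (Ne.symm he.1.1) hde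
              ⟨hxc, hd.1.2, he.1.2, hy.2, hd.2.1, he.2.1, hz.2, hd.2.2, he.2.2⟩
          exact_mod_cast h2
      calc ∑ z ∈ P, ∑ d ∈ Q, ind E y d * ind E z d
          ≤ ∑ z ∈ P, ((if z = y then ∑ d ∈ Q, ind E y d else 0) + 1) := Finset.sum_le_sum hz
        _ = (∑ d ∈ Q, ind E y d) + P.card := by
            rw [Finset.sum_add_distrib, Finset.sum_ite_eq' P y, if_pos hy]
            simp
    rw [e1]
    calc ∑ y ∈ P, ∑ z ∈ P, ∑ d ∈ Q, ind E y d * ind E z d
        ≤ ∑ y ∈ P, ((∑ d ∈ Q, ind E y d) + P.card) := Finset.sum_le_sum e2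
      _ = (∑ d ∈ Q, f d) + (P.card : ℝ) ^ 2 := by
          rw [Finset.sum_add_distrib, Finset.sum_comm, Finset.sum_const, nsmul_eq_mul]
          ring
  have hcs : (∑ d ∈ Q, f d) ^ 2 ≤ Q.card * ∑ d ∈ Q, f d ^ 2 := sq_sum_le_card_mul_sum_sq
  have hf0 : 0 ≤ ∑ d ∈ Q, f d :=
    Finset.sum_nonneg fun d _ => Finset.sum_nonneg fun y _ => ind_nonneg E y d
  have hfin : (∑ d ∈ Q, f d) ^ 2 ≤ (a : ℝ) * ((∑ d ∈ Q, f d) + (P.card : ℝ) ^ 2) := by
    calc (∑ d ∈ Q, f d) ^ 2 ≤ Q.card * ∑ d ∈ Q, f d ^ 2 := hcs
      _ ≤ Q.card * ((∑ d ∈ Q, f d) + (P.card : ℝ) ^ 2) :=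
          mul_le_mul_of_nonneg_left hsq (by positivity)
      _ ≤ (a : ℝ) * ((∑ d ∈ Q, f d) + (P.card : ℝ) ^ 2) :=
          mul_le_mul_of_nonneg_right hQa (by positivity)
  exact real_aux (by positivity) (by positivity) hfin

/-- the codegree of two rows -/
def cod (x y : R) : ℝ := ∑ c, ind E x c * ind E y c

theorem cod_nonneg (x y : R) : 0 ≤ cod E x y :=
  Finset.sum_nonneg fun c _ => mul_nonneg (ind_nonneg E x c) (ind_nonneg E y c)

/-- the sum of the codegrees of ordered pairs of distinct rows -/
def SS : ℝ := ∑ x, ∑ y ∈ univ.filter (fun y => y ≠ x), cod E x y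

theorem ineq_one (h : NoK33 E) (a : ℕ)
    (ha : ∀ x, (univ.filter fun d => E x d).card = a) :
    SS E ^ 2 ≤ (Fintype.card R : ℝ) ^ 2 *
      ((Fintype.card R : ℝ) * a ^ 2 + (Real.sqrt a + 1) * SS E) := by
  -- Cauchy-Schwarz
  have hcs : SS E ^ 2 ≤ (Fintype.card R : ℝ) ^ 2 *
      ∑ x, ∑ y ∈ univ.filter (fun y => y ≠ x), cod E x y ^ 2 := by
    unfold SS
    have h1 : (∑ x, ∑ y ∈ univ.filter (fun y => y ≠ x), cod E x y) ^ 2 ≤
        (Fintype.card R : ℝ) * ∑ x, (∑ y ∈ univ.filter (fun y => y ≠ x), cod E x y) ^ 2 := by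
      have := sq_sum_le_card_mul_sum_sq (s := (univ : Finset R))
        (f := fun x => ∑ y ∈ univ.filter (fun y => y ≠ x), cod E x y)
      simpa using this
    have h2 : ∀ x : R, (∑ y ∈ univ.filter (fun y => y ≠ x), cod E x y) ^ 2 ≤
        (Fintype.card R : ℝ) * ∑ y ∈ univ.filter (fun y => y ≠ x), cod E x y ^ 2 := by
      intro x
      have := sq_sum_le_card_mul_sum_sq (s := univ.filter (fun y => y ≠ x))
        (f := fun y => cod E x y)
      refine this.trans (mul_le_mul_of_nonneg_right ?_
        (Finset.sum_nonneg fun y _ => sq_nonneg _))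
      exact_mod_cast Finset.card_le_univ _
    calc _ ≤ _ := h1
      _ ≤ (Fintype.card R : ℝ) * ∑ x, ((Fintype.card R : ℝ) *
            ∑ y ∈ univ.filter (fun y => y ≠ x), cod E x y ^ 2) :=
          mul_le_mul_of_nonneg_left (Finset.sum_le_sum fun x _ => h2 x) (by positivity)
      _ = _ := by rw [← Finset.mul_sum]; ring
  -- the links
  have hlink : ∀ x : R, (∑ y ∈ univ.filter (fun y => y ≠ x), cod E x y ^ 2) -
      (∑ y ∈ univ.filter (fun y => y ≠ x), cod E x y) ≤
      (a : ℝ) ^ 2 + Real.sqrt a * ∑ y ∈ univ.filter (fun y => y ≠ x), cod E x y := by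
    intro x
    -- number of links edges
    have e1 : (∑ y ∈ univ.filter (fun y => y ≠ x), cod E x y ^ 2) -
        (∑ y ∈ univ.filter (fun y => y ≠ x), cod E x y) =
        ∑ c ∈ univ.filter (fun c => E x c), ∑ d ∈ univ.filter (fun d => d ≠ c ∧ E x d),
          ∑ y ∈ univ.filter (fun y => y ≠ x ∧ E y c), ind E y d := by
      rw [← Finset.sum_sub_distrib]
      have hy : ∀ y : R, cod E x y ^ 2 - cod E x y =
          ∑ c, ∑ d ∈ univ.filter (fun d => d ≠ c),
            (ind E x c * ind E y c) * (ind E x d * ind E y d) := by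
        intro y
        rw [sq]
        unfold cod
        rw [Finset.sum_mul_sum, ← Finset.sum_sub_distrib]
        refine Finset.sum_congr rfl fun c _ => ?_
        have : ∑ d, (ind E x c * ind E y c) * (ind E x d * ind E y d) =
            ∑ d ∈ univ.filter (fun d => d ≠ c), (ind E x c * ind E y c) * (ind E x d * ind E y d) +
            ∑ d ∈ univ.filter (fun d => ¬ d ≠ c),
              (ind E x c * ind E y c) * (ind E x d * ind E y d) :=
          (Finset.sum_filter_add_sum_filter_not univ (fun d => d ≠ c) _).symm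
        rw [this]
        have h2 : ∑ d ∈ univ.filter (fun d => ¬ d ≠ c),
            (ind E x c * ind E y c) * (ind E x d * ind E y d) = ind E x c * ind E y c := by
          have : univ.filter (fun d => ¬ d ≠ c) = {c} := by
            ext d; simp
          rw [this, Finset.sum_singleton]
          have h1 := ind_sq E x c
          have h2 := ind_sq E y c
          calc _ = (ind E x c * ind E x c) * (ind E y c * ind E y c) := by ring
            _ = _ := by rw [h1, h2]
        rw [h2]
        ring
      rw [Finset.sum_congr rfl fun y _ => hy y, Finset.sum_comm]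
      rw [Finset.sum_filter]
      refine Finset.sum_congr rfl fun c _ => ?_
      by_cases hc : E x c
      · rw [if_pos hc, Finset.sum_comm]
        have : univ.filter (fun d => d ≠ c ∧ E x d) =
            (univ.filter (fun d => d ≠ c)).filter (fun d => E x d) := by
          rw [Finset.filter_filter]
        rw [this, Finset.sum_filter (fun d => E x d)]
        refine Finset.sum_congr rfl fun d _ => ?_
        by_cases hd : E x d
        · rw [if_pos hd]
          have : univ.filter (fun y => y ≠ x ∧ E y c) =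
              (univ.filter (fun y => y ≠ x)).filter (fun y => E y c) := by
            rw [Finset.filter_filter]
          rw [this, Finset.sum_filter (fun y => E y c)]
          refine Finset.sum_congr rfl fun y _ => ?_
          unfold ind
          by_cases hy1 : E y c <;> simp [hc, hd, hy1]
        · rw [if_neg hd]
          refine Finset.sum_eq_zero fun y _ => ?_
          unfold ind
          simp [hd]
      · rw [if_neg hc]
        refine Finset.sum_eq_zero fun y _ => Finset.sum_eq_zero fun d _ => ?_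
        unfold ind
        simp [hc]
    rw [e1]
    have e2 : ∀ c ∈ univ.filter (fun c => E x c),
        ∑ d ∈ univ.filter (fun d => d ≠ c ∧ E x d),
          ∑ y ∈ univ.filter (fun y => y ≠ x ∧ E y c), ind E y d ≤
        a + Real.sqrt a * ((univ.filter fun y => y ≠ x ∧ E y c).card : ℝ) := by
      intro c hc
      simp only [mem_filter, mem_univ, true_and] at hc
      exact link_le E h x c hc a (ha x)
    refine (Finset.sum_le_sum e2).trans (le_of_eq ?_)
    rw [Finset.sum_add_distrib, Finset.sum_const, ha x, nsmul_eq_mul, ← Finset.mul_sum]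
    have e3 : ∑ c ∈ univ.filter (fun c => E x c),
        ((univ.filter fun y => y ≠ x ∧ E y c).card : ℝ) =
        ∑ y ∈ univ.filter (fun y => y ≠ x), cod E x y := by
      unfold cod
      rw [Finset.sum_comm, Finset.sum_filter]
      refine Finset.sum_congr rfl fun c _ => ?_
      by_cases hc : E x c
      · rw [if_pos hc]
        have : univ.filter (fun y => y ≠ x ∧ E y c) =
            (univ.filter (fun y => y ≠ x)).filter (fun y => E y c) := by
          rw [Finset.filter_filter]
        rw [this, Finset.card_filter]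
        push_cast
        refine Finset.sum_congr rfl fun y _ => ?_
        unfold ind
        simp [hc]
      · rw [if_neg hc]
        symm
        refine Finset.sum_eq_zero fun y _ => ?_
        unfold ind
        simp [hc]
    rw [e3]
    ring
  have hsum : (∑ x, ∑ y ∈ univ.filter (fun y => y ≠ x), cod E x y ^ 2) ≤
      (Fintype.card R : ℝ) * a ^ 2 + (Real.sqrt a + 1) * SS E := by
    have := Finset.sum_le_sum (s := (univ : Finset R)) fun x _ => hlink x
    rw [Finset.sum_sub_distrib, Finset.sum_add_distrib, ← Finset.mul_sum, Finset.sum_const,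
      nsmul_eq_mul, Finset.card_univ] at this
    unfold SS
    linarith
  exact hcs.trans (mul_le_mul_of_nonneg_left hsum (by positivity))

theorem ineq_two (a : ℕ) (ha : ∀ x, (univ.filter fun d => E x d).card = a) :
    ((Fintype.card R : ℝ) * a) ^ 2 ≤
      (Fintype.card M : ℝ) * (SS E + (Fintype.card R : ℝ) * a) := by
  have hrow : ∀ x, ∑ c, ind E x c = a := by
    intro x
    rw [← ha x, Finset.card_filter]
    push_cast
    rfl
  have htot : ∑ c, ∑ x, ind E x c = (Fintype.card R : ℝ) * a := by
    rw [Finset.sum_comm, Finset.sum_congr rfl fun x _ => hrow x]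
    simp
  have hcs : (∑ c, ∑ x, ind E x c) ^ 2 ≤ (Fintype.card M : ℝ) * ∑ c, (∑ x, ind E x c) ^ 2 := by
    have := sq_sum_le_card_mul_sum_sq (s := (univ : Finset M)) (f := fun c => ∑ x, ind E x c)
    simpa using this
  have hsq : ∑ c, (∑ x, ind E x c) ^ 2 = SS E + (Fintype.card R : ℝ) * a := by
    have e1 : ∀ c, (∑ x, ind E x c) ^ 2 = ∑ x, ∑ y, ind E x c * ind E y c := by
      intro c
      rw [sq, Finset.sum_mul_sum]
    rw [Finset.sum_congr rfl fun c _ => e1 c, Finset.sum_comm]
    have e2 : ∀ x, ∑ c, ∑ y, ind E x c * ind E y c =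
        (∑ y ∈ univ.filter (fun y => y ≠ x), cod E x y) + a := by
      intro x
      rw [Finset.sum_comm]
      rw [← Finset.sum_filter_add_sum_filter_not univ (fun y => y ≠ x)]
      congr 1
      have : univ.filter (fun y => ¬ y ≠ x) = {x} := by
        ext d; simp
      rw [this, Finset.sum_singleton, ← hrow x]
      exact Finset.sum_congr rfl fun c _ => ind_sq E x c
    rw [Finset.sum_congr rfl fun x _ => e2 x, Finset.sum_add_distrib, Finset.sum_const,
      nsmul_eq_mul, Finset.card_univ]
    rfl
  rw [htot, hsq] at hcs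
  exact hcs

theorem SS_nonneg : 0 ≤ SS E :=
  Finset.sum_nonneg fun x _ => Finset.sum_nonneg fun y _ => cod_nonneg E x y

/-- The inequality of Füredi type for `K_{3,3}`-free relations with constant row sums. -/
theorem main_ineq (h : NoK33 E) (a : ℕ) (ha : ∀ x, (univ.filter fun d => E x d).card = a)
    (hR : 0 < Fintype.card R) :
    (a : ℝ) ^ 2 ≤ (Fintype.card M : ℝ) * (Real.sqrt a + 1 + a / Real.sqrt (Fintype.card R) +
      a / (Fintype.card R : ℝ)) := by
  set u : ℝ := (Fintype.card R : ℝ) with hu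
  set m : ℝ := (Fintype.card M : ℝ) with hm
  set S := SS E with hS
  have hu0 : 0 < u := by rw [hu]; exact_mod_cast hR
  have hm0 : 0 ≤ m := by rw [hm]; positivity
  have h1 := ineq_one E h a ha
  have h2 := ineq_two E a ha
  rw [← hu, ← hS] at h1
  rw [← hu, ← hm, ← hS] at h2
  have hS0 : 0 ≤ S := SS_nonneg E
  have hsu : Real.sqrt u ^ 2 = u := Real.sq_sqrt hu0.le
  have hsu0 : 0 < Real.sqrt u := Real.sqrt_pos.2 hu0
  have ha0 : (0 : ℝ) ≤ a := by positivity
  have h3 : S ≤ u ^ 2 * (Real.sqrt a + 1) + u * Real.sqrt u * a := by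
    by_contra hc
    push Not at hc
    have hA : 0 ≤ u * Real.sqrt u * a := by positivity
    have hB : 0 ≤ u ^ 2 * (Real.sqrt a + 1) := by positivity
    have h4 : u * Real.sqrt u * a < S - u ^ 2 * (Real.sqrt a + 1) := by linarith
    have h5 : u * Real.sqrt u * a ≤ S := by linarith
    have hSp : 0 < S := by linarith
    have h6 : (u * Real.sqrt u * a) * (u * Real.sqrt u * a) <
        S * (S - u ^ 2 * (Real.sqrt a + 1)) := by
      calc _ ≤ S * (u * Real.sqrt u * a) := mul_le_mul_of_nonneg_right h5 hA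
        _ < _ := mul_lt_mul_of_pos_left h4 hSp
    have h7 : (u * Real.sqrt u * a) * (u * Real.sqrt u * a) = u ^ 2 * (u * a ^ 2) := by
      calc _ = u ^ 2 * (Real.sqrt u ^ 2 * a ^ 2) := by ring
        _ = _ := by rw [hsu]
    rw [h7] at h6
    nlinarith
  have h4 : (u * a) ^ 2 ≤ m * (u ^ 2 * (Real.sqrt a + 1) + u * Real.sqrt u * a + u * a) := by
    refine h2.trans (mul_le_mul_of_nonneg_left ?_ hm0)
    linarith
  have h5 : u ^ 2 * (m * (Real.sqrt a + 1 + a / Real.sqrt u + a / u)) =
      m * (u ^ 2 * (Real.sqrt a + 1) + u * Real.sqrt u * a + u * a) := by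
    have e1 : u ^ 2 * (a / Real.sqrt u) = u * Real.sqrt u * a := by
      have : u ^ 2 = u * (Real.sqrt u * Real.sqrt u) := by rw [← sq, hsu]; ring
      rw [this]
      field_simp
    have e2 : u ^ 2 * ((a : ℝ) / u) = u * a := by
      field_simp
    calc _ = m * (u ^ 2 * (Real.sqrt a + 1) + u ^ 2 * (a / Real.sqrt u) + u ^ 2 * ((a : ℝ) / u)) := by
          ring
      _ = _ := by rw [e1, e2]
  have h6 : u ^ 2 * (a : ℝ) ^ 2 ≤ u ^ 2 * (m * (Real.sqrt a + 1 + a / Real.sqrt u + a / u)) := by
    rw [h5]
    calc u ^ 2 * (a : ℝ) ^ 2 = (u * a) ^ 2 := by ring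
      _ ≤ _ := h4
  exact le_of_mul_le_mul_left h6 (by positivity)

end bip

end Pool.Agent.H966R3.C33
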