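import Mathlib
import Pool.Agent.Cov.PNT
import Pool.Agent.H966R3.C33Defs
import Pool.Agent.H966R3.C33Upper
import Pool.Agent.H966R3.C33Count

/-!
# `F(n) ~ n^(2/3)` for `C_3[3]`-sets
-/

set_option autoImplicit false

namespace Pool.Agent.H966R3.C33

open Finset Filter Topology

theorem exists_prime_between {ε : ℝ} (hε : 0 < ε) :
    ∀ᶠ x : ℝ in atTop, ∃ p : ℕ, p.Prime ∧ x < p ∧ (p : ℝ) ≤ (1 + ε) * x := by
  have h1 := Pool.Agent.Cov.PNT.theta_div_tendsto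
  have h2 : Tendsto (fun x : ℝ => Chebyshev.theta ((1 + ε) * x) / x) atTop (𝓝 (1 + ε)) := by
    have h3 := (h1.comp (tendsto_id.const_mul_atTop (by linarith : (0 : ℝ) < 1 + ε))).mul_const
      (1 + ε)
    rw [one_mul] at h3
    refine h3.congr' ?_
    filter_upwards [eventually_gt_atTop 0] with x hx
    simp only [Function.comp, id]
    field_simp
  have h4 := h2.sub h1
  have h5 : ∀ᶠ x : ℝ in atTop, 0 < Chebyshev.theta ((1 + ε) * x) / x - Chebyshev.theta x / x :=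
    h4.eventually (lt_mem_nhds (by linarith))
  filter_upwards [h5, eventually_gt_atTop 0] with x hx hx0
  by_contra hno
  push Not at hno
  have : Chebyshev.theta ((1 + ε) * x) ≤ Chebyshev.theta x := by
    unfold Chebyshev.theta
    apply Finset.sum_le_sum_of_subset_of_nonneg
    · intro p hp
      simp only [Finset.mem_filter, Finset.mem_Ioc] at hp ⊢
      obtain ⟨⟨hp0, hp1⟩, hpp⟩ := hp
      have hp2 : (p : ℝ) ≤ (1 + ε) * x := (Nat.le_floor_iff (by positivity)).mp hp1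
      refine ⟨⟨hp0, ?_⟩, hpp⟩
      apply Nat.le_floor
      by_contra hlt
      push Not at hlt
      exact absurd hp2 (not_le.mpr (hno p hpp hlt))
    · intro i hi _
      simp only [Finset.mem_filter, Finset.mem_Ioc] at hi
      exact Real.log_nonneg (by exact_mod_cast hi.2.one_le)
  rw [← sub_div] at hx
  have := div_nonpos_of_nonpos_of_nonneg (sub_nonpos.mpr this) hx0.le
  linarith

/-- The upper bound for a single set, with a free parameter `u`. -/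
theorem card_ineq {n u : ℕ} (hu : 0 < u) {A : Finset ℤ} (hA : A ⊆ Finset.Icc 1 (n : ℤ))
    (h : IsCSet 3 3 (A : Set ℤ)) :
    (A.card : ℝ) ^ 2 ≤ ((n : ℝ) + u) * (Real.sqrt A.card + 1 + A.card / Real.sqrt u +
      A.card / (u : ℝ)) := by
  classical
  let E : Fin u → Fin (n + u) → Prop := fun x c => ((c : ℕ) : ℤ) - ((x : ℕ) : ℤ) ∈ A
  have hE : NoK33 E := by
    intro x y z c d e hxy hxz hyz hcd hce hde hall
    obtain ⟨h1, h2, h3, h4, h5, h6, h7, h8, h9⟩ := hall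
    apply h
    refine ⟨{-((x : ℕ) : ℤ), -((y : ℕ) : ℤ), -((z : ℕ) : ℤ)},
      {((c : ℕ) : ℤ), ((d : ℕ) : ℤ), ((e : ℕ) : ℤ)}, ?_, ?_, ?_⟩
    · rw [Finset.card_eq_three]
      refine ⟨_, _, _, ?_, ?_, ?_, rfl⟩
      · intro hh
        exact hxy (Fin.ext (by omega))
      · intro hh
        exact hxz (Fin.ext (by omega))
      · intro hh
        exact hyz (Fin.ext (by omega))
    · rw [Finset.card_eq_three]
      refine ⟨_, _, _, ?_, ?_, ?_, rfl⟩
      · intro hh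
        exact hcd (Fin.ext (by omega))
      · intro hh
        exact hce (Fin.ext (by omega))
      · intro hh
        exact hde (Fin.ext (by omega))
    · intro k hk w hw
      simp only [Finset.mem_insert, Finset.mem_singleton] at hk hw
      rw [Finset.mem_coe]
      rcases hk with rfl | rfl | rfl <;> rcases hw with rfl | rfl | rfl <;>
        rw [neg_add_eq_sub] <;> assumption
  have hrow : ∀ x : Fin u, (univ.filter fun c => E x c).card = A.card := by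
    intro x
    refine Finset.card_bij (fun c _ => ((c : ℕ) : ℤ) - ((x : ℕ) : ℤ)) ?_ ?_ ?_
    · intro c hc
      simp only [mem_filter, mem_univ, true_and] at hc
      exact hc
    · intro c _ d _ hcd
      exact Fin.ext (by omega)
    · intro α hα
      have h1 := Finset.mem_Icc.1 (hA hα)
      have hx := x.2
      refine ⟨⟨(α + x).toNat, by omega⟩, ?_, ?_⟩
      · simp only [mem_filter, mem_univ, true_and, E]
        have : (((α + x).toNat : ℕ) : ℤ) - ((x : ℕ) : ℤ) = α := by omega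
        rw [this]
        exact hα
      · simp only
        omega
  have := main_ineq E hE A.card hrow (by rw [Fintype.card_fin]; exact hu)
  rw [Fintype.card_fin, Fintype.card_fin] at this
  push_cast at this
  exact this

theorem F_mem (n : ℕ) : ∃ A : Finset ℤ, A ⊆ Finset.Icc 1 (n : ℤ) ∧ IsCSet 3 3 (A : Set ℤ) ∧
    A.card = F n := by
  have hne : {a | ∃ A : Finset ℤ, A ⊆ Finset.Icc 1 (n : ℤ) ∧ IsCSet 3 3 (A : Set ℤ) ∧
      A.card = a}.Nonempty := by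
    refine ⟨0, ∅, by simp, ?_, rfl⟩
    rintro ⟨X, K, hX, hK, hXK⟩
    have hX' : X.Nonempty := Finset.card_pos.1 (by omega)
    have hK' : K.Nonempty := Finset.card_pos.1 (by omega)
    obtain ⟨x, hx⟩ := hX'
    obtain ⟨k, hk⟩ := hK'
    simpa using hXK k hk x hx
  exact Nat.sSup_mem hne (F_bdd n)

theorem F_ineq (n u : ℕ) (hu : 0 < u) :
    (F n : ℝ) ^ 2 ≤ ((n : ℝ) + u) * (Real.sqrt (F n) + 1 + F n / Real.sqrt u +
      F n / (u : ℝ)) := by
  obtain ⟨A, hA, hC, hcard⟩ := F_mem n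
  have := card_ineq hu hA hC
  rw [hcard] at this
  exact this

theorem F_lower (p n : ℕ) (hp : p.Prime) (hn : p ^ 3 ≤ n) : p ^ 2 - p ≤ F n := by
  haveI : Fact p.Prime := ⟨hp⟩
  obtain ⟨A, hA, hC, hcard⟩ := exists_set p
  refine hcard.trans (le_F (hA.trans ?_) hC)
  apply Finset.Icc_subset_Icc le_rfl
  have h1 : (p ^ 2 + 1) * (p - 1) ≤ p ^ 3 := by
    obtain ⟨q, rfl⟩ : ∃ q, p = q + 1 := ⟨p - 1, by have := hp.pos; omega⟩
    simp only [Nat.add_sub_cancel]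
    nlinarith
  exact_mod_cast h1.trans hn

theorem cube_root (n : ℕ) : ((n : ℝ) ^ (1 / 3 : ℝ)) ^ 3 = n := by
  rw [← Real.rpow_natCast, ← Real.rpow_mul (by positivity)]
  norm_num

theorem cube_root_sq (n : ℕ) : ((n : ℝ) ^ (1 / 3 : ℝ)) ^ 2 = (n : ℝ) ^ (2 / 3 : ℝ) := by
  rw [← Real.rpow_natCast, ← Real.rpow_mul (by positivity)]
  norm_num

theorem tendsto_root : Tendsto (fun n : ℕ => (n : ℝ) ^ (1 / 3 : ℝ)) atTop atTop :=
  (tendsto_rpow_atTop (by norm_num)).comp tendsto_natCast_atTop_atTop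

theorem upper (ε : ℝ) (hε : 0 < ε) :
    ∀ᶠ n : ℕ in atTop, (F n : ℝ) / (n : ℝ) ^ (2 / 3 : ℝ) ≤ 1 + ε := by
  -- choose `δ`
  obtain ⟨δ, hδ0, hδ1, hδ⟩ : ∃ δ : ℝ, 0 < δ ∧ δ ≤ 1 ∧ (1 + 2 * δ) * (1 + δ) ≤ 1 + ε := by
    refine ⟨min 1 (ε / 5), lt_min one_pos (by linarith), min_le_left _ _, ?_⟩
    have h1 : min 1 (ε / 5) ≤ 1 := min_le_left _ _
    have h2 : min 1 (ε / 5) ≤ ε / 5 := min_le_right _ _
    have h3 : 0 < min 1 (ε / 5) := lt_min one_pos (by linarith)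
    nlinarith
  have hη : Tendsto (fun s : ℝ => s⁻¹ + (Real.sqrt δ)⁻¹ * (Real.sqrt s)⁻¹ +
      δ⁻¹ * (s ^ 2)⁻¹) atTop (𝓝 0) := by
    have h1 : Tendsto (fun s : ℝ => s⁻¹) atTop (𝓝 0) := tendsto_inv_atTop_zero
    have h2 : Tendsto (fun s : ℝ => (Real.sqrt δ)⁻¹ * (Real.sqrt s)⁻¹) atTop (𝓝 0) := by
      have := (tendsto_inv_atTop_zero.comp Real.tendsto_sqrt_atTop).const_mul (Real.sqrt δ)⁻¹
      simpa using this
    have h3 : Tendsto (fun s : ℝ => δ⁻¹ * (s ^ 2)⁻¹) atTop (𝓝 0) := by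
      have := (tendsto_inv_atTop_zero.comp
        (tendsto_pow_atTop (α := ℝ) (n := 2) (by norm_num))).const_mul δ⁻¹
      simpa using this
    have := (h1.add h2).add h3
    simpa using this
  have hη' : ∀ᶠ s : ℝ in atTop, s⁻¹ + (Real.sqrt δ)⁻¹ * (Real.sqrt s)⁻¹ +
      δ⁻¹ * (s ^ 2)⁻¹ < δ := hη.eventually (gt_mem_nhds hδ0)
  filter_upwards [tendsto_root.eventually hη', tendsto_root.eventually (eventually_ge_atTop 1),
    tendsto_natCast_atTop_atTop.eventually (eventually_ge_atTop (δ⁻¹ : ℝ))] with n hn1 hn2 hn3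
  rw [← cube_root_sq]
  set s : ℝ := (n : ℝ) ^ (1 / 3 : ℝ) with hs
  have hs3 : s ^ 3 = n := cube_root n
  have hs0 : 0 < s := by linarith
  set u : ℕ := ⌈δ * n⌉₊ with hu
  have hn0 : (0 : ℝ) < n := by rw [← hs3]; positivity
  have hu0 : 0 < u := by rw [hu]; exact Nat.ceil_pos.2 (by positivity)
  have hu1 : δ * n ≤ u := Nat.le_ceil _
  have hu2 : (u : ℝ) ≤ 2 * δ * n := by
    have h1 : (u : ℝ) < δ * n + 1 := Nat.ceil_lt_add_one (by positivity)
    have h2 : 1 ≤ δ * n := by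
      have := mul_le_mul_of_nonneg_left hn3 hδ0.le
      rwa [mul_inv_cancel₀ hδ0.ne'] at this
    linarith
  have hmain := F_ineq n u hu0
  set a : ℝ := (F n : ℝ) with ha
  have ha0 : 0 ≤ a := by rw [ha]; positivity
  rw [div_le_iff₀ (by positivity)]
  by_contra hcon
  push Not at hcon
  have hb : s ^ 2 < a := by nlinarith [sq_nonneg s, hε]
  have hapos : 0 < a := lt_of_le_of_lt (sq_nonneg s) hb
  have hsqrta : s ≤ Real.sqrt a := by
    rw [← Real.sqrt_sq hs0.le]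
    exact Real.sqrt_le_sqrt hb.le
  have hsa : Real.sqrt a * Real.sqrt a = a := Real.mul_self_sqrt ha0
  have hsa0 : 0 < Real.sqrt a := Real.sqrt_pos.2 hapos
  -- bounds for the terms
  have t1 : Real.sqrt a ≤ a / s := by
    rw [le_div_iff₀ hs0]
    nlinarith
  have t2 : (1 : ℝ) ≤ (a / s) * s⁻¹ := by
    rw [div_mul_eq_mul_div, le_div_iff₀ hs0, ← div_eq_mul_inv, le_div_iff₀ hs0]
    nlinarith
  have hsu : Real.sqrt δ * (Real.sqrt s * s) ≤ Real.sqrt u := by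
    have h1 : Real.sqrt δ * (Real.sqrt s * s) = Real.sqrt (δ * n) := by
      rw [Real.sqrt_mul hδ0.le, ← hs3]
      congr 1
      have : s ^ 3 = s * s ^ 2 := by ring
      rw [this, Real.sqrt_mul hs0.le, Real.sqrt_sq hs0.le]
    rw [h1]
    exact Real.sqrt_le_sqrt hu1
  have hδs : 0 < Real.sqrt δ := Real.sqrt_pos.2 hδ0
  have hss : 0 < Real.sqrt s := Real.sqrt_pos.2 hs0
  have t3 : a / Real.sqrt u ≤ (a / s) * ((Real.sqrt δ)⁻¹ * (Real.sqrt s)⁻¹) := by
    have h1 : (a / s) * ((Real.sqrt δ)⁻¹ * (Real.sqrt s)⁻¹) =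
        a / (Real.sqrt δ * (Real.sqrt s * s)) := by
      field_simp
    rw [h1]
    exact div_le_div_of_nonneg_left ha0 (by positivity) hsu
  have t4 : a / (u : ℝ) ≤ (a / s) * (δ⁻¹ * (s ^ 2)⁻¹) := by
    have h1 : (a / s) * (δ⁻¹ * (s ^ 2)⁻¹) = a / (δ * s ^ 3) := by
      field_simp
    rw [h1, hs3]
    exact div_le_div_of_nonneg_left ha0 (by positivity) hu1
  have hbr : Real.sqrt a + 1 + a / Real.sqrt u + a / (u : ℝ) ≤ (a / s) * (1 + δ) := by
    have h1 : (a / s) * (s⁻¹ + (Real.sqrt δ)⁻¹ * (Real.sqrt s)⁻¹ + δ⁻¹ * (s ^ 2)⁻¹) ≤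
        (a / s) * δ := mul_le_mul_of_nonneg_left hn1.le (by positivity)
    nlinarith
  have hnu : (n : ℝ) + u ≤ (1 + 2 * δ) * s ^ 3 := by
    rw [hs3]; linarith
  have h5 : a ^ 2 ≤ (1 + 2 * δ) * s ^ 3 * ((a / s) * (1 + δ)) := by
    refine hmain.trans ?_
    apply mul_le_mul hnu hbr (by positivity) (by positivity)
  have h6 : (1 + 2 * δ) * s ^ 3 * ((a / s) * (1 + δ)) = ((1 + 2 * δ) * (1 + δ)) * s ^ 2 * a := by
    field_simp
  rw [h6, sq] at h5
  have h7 : a ≤ ((1 + 2 * δ) * (1 + δ)) * s ^ 2 := le_of_mul_le_mul_right h5 hapos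
  have h8 : ((1 + 2 * δ) * (1 + δ)) * s ^ 2 ≤ (1 + ε) * s ^ 2 :=
    mul_le_mul_of_nonneg_right hδ (by positivity)
  linarith

theorem lower (ε : ℝ) (hε : 0 < ε) :
    ∀ᶠ n : ℕ in atTop, 1 - ε ≤ (F n : ℝ) / (n : ℝ) ^ (2 / 3 : ℝ) := by
  -- choose `δ`
  obtain ⟨δ, hδ0, hδ⟩ : ∃ δ : ℝ, 0 < δ ∧ 1 - ε / 2 ≤ 1 / (1 + δ) ^ 2 := by
    have : Tendsto (fun δ : ℝ => 1 / (1 + δ) ^ 2) (𝓝[>] 0) (𝓝 (1 / (1 + 0) ^ 2)) := by
      apply Tendsto.mono_left _ nhdsWithin_le_nhds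
      apply ContinuousAt.tendsto
      fun_prop (disch := norm_num)
    have h2 := (this.eventually (lt_mem_nhds (by norm_num; linarith : 1 - ε / 2 <
      1 / (1 + (0 : ℝ)) ^ 2))).and self_mem_nhdsWithin
    obtain ⟨δ, h3, h4⟩ := h2.exists
    exact ⟨δ, h4, h3.le⟩
  have hsc : Tendsto (fun n : ℕ => (n : ℝ) ^ (1 / 3 : ℝ) / (1 + δ)) atTop atTop :=
    tendsto_root.atTop_div_const (by positivity)
  filter_upwards [hsc.eventually (exists_prime_between hδ0),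
    hsc.eventually (eventually_ge_atTop (2 / ε)),
    tendsto_root.eventually (eventually_ge_atTop 1)] with n hn1 hn2 hn3
  rw [← cube_root_sq]
  set s : ℝ := (n : ℝ) ^ (1 / 3 : ℝ) with hs
  have hs3 : s ^ 3 = n := cube_root n
  have hs0 : 0 < s := by linarith
  obtain ⟨p, hp, hp1, hp2⟩ := hn1
  have hp2' : (p : ℝ) ≤ s := by
    have : (1 + δ) * (s / (1 + δ)) = s := by field_simp
    rwa [this] at hp2
  have hp0 : (0 : ℝ) < p := by exact_mod_cast hp.pos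
  have hcube : p ^ 3 ≤ n := by
    have : (p : ℝ) ^ 3 ≤ n := by
      rw [← hs3]
      exact pow_le_pow_left₀ hp0.le hp2' 3
    exact_mod_cast this
  have hF := F_lower p n hp hcube
  have hF' : (p : ℝ) ^ 2 - p ≤ F n := by
    have h1 : p ≤ p ^ 2 := Nat.le_self_pow (by norm_num) p
    have h2 : ((p ^ 2 - p : ℕ) : ℝ) ≤ F n := by exact_mod_cast hF
    rw [Nat.cast_sub h1] at h2
    push_cast at h2
    exact h2
  rw [le_div_iff₀ (by positivity)]
  have h1 : (s / (1 + δ)) ^ 2 ≤ (p : ℝ) ^ 2 := pow_le_pow_left₀ (by positivity) hp1.le 2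
  have h2 : (s / (1 + δ)) ^ 2 = s ^ 2 * (1 / (1 + δ) ^ 2) := by
    field_simp
  have h3 : 2 / ε ≤ p := hn2.trans hp1.le
  have h4 : 2 ≤ ε * p := by
    rw [div_le_iff₀ hε] at h3
    linarith
  have h5 : (p : ℝ) ≤ ε / 2 * (p : ℝ) ^ 2 := by nlinarith
  by_cases hε1 : ε ≥ 1
  · have h6 : (1 - ε) * s ^ 2 ≤ 0 := by nlinarith [sq_nonneg s]
    have h7 : (0 : ℝ) ≤ F n := by positivity
    linarith
  · push Not at hε1
    have h6 : s ^ 2 * (1 - ε / 2) ≤ (p : ℝ) ^ 2 := by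
      calc s ^ 2 * (1 - ε / 2) ≤ s ^ 2 * (1 / (1 + δ) ^ 2) :=
            mul_le_mul_of_nonneg_left hδ (by positivity)
        _ ≤ (p : ℝ) ^ 2 := by rw [← h2]; exact h1
    have h7 : (1 - ε / 2) * (s ^ 2 * (1 - ε / 2)) ≤ (1 - ε / 2) * (p : ℝ) ^ 2 :=
      mul_le_mul_of_nonneg_left h6 (by linarith)
    have h8 : (1 - ε) * s ^ 2 ≤ (1 - ε / 2) * (s ^ 2 * (1 - ε / 2)) := by
      nlinarith [sq_nonneg s, sq_nonneg ε, mul_nonneg (sq_nonneg s) (sq_nonneg ε)]
    linarith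

/-- `F(n) / n ^ (2/3) → 1`. -/
theorem main : Tendsto (fun n : ℕ => (F n : ℝ) / (n : ℝ) ^ (2 / 3 : ℝ)) atTop (𝓝 1) := by
  rw [Metric.tendsto_atTop]
  intro ε hε
  have h1 := upper (ε / 2) (by linarith)
  have h2 := lower (ε / 2) (by linarith)
  obtain ⟨N, hN⟩ := eventually_atTop.1 (h1.and h2)
  refine ⟨N, fun n hn => ?_⟩
  obtain ⟨h3, h4⟩ := hN n hn
  rw [Real.dist_eq, abs_lt]
  constructor <;> linarith

end Pool.Agent.H966R3.C33
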