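import Mathlib

/-!
# Monochromatic tree covers and tree partitions of complete bipartite graphs

Definitions and the two counting bounds used for the results on `tp_r (K_{n,m})`.
-/

namespace Pool.Agent.H966R3.TreePart

open SimpleGraph

/-- `T` is a monochromatic tree of the graph `G` under the edge colouring `c`:
a subgraph which is a tree and all whose edges have the same colour
(a single vertex is allowed). -/
def IsMonoTree {V : Type} {G : SimpleGraph V} {r : ℕ} (c : G.edgeSet → Fin r)
    (T : G.Subgraph) : Prop :=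
  T.coe.IsTree ∧
    ∀ e (he : e ∈ T.edgeSet) f (hf : f ∈ T.edgeSet),
      c ⟨e, T.edgeSet_subset he⟩ = c ⟨f, T.edgeSet_subset hf⟩

/-- The vertex set is the union of the vertex sets of `k` monochromatic trees. -/
def Coverable {V : Type} {G : SimpleGraph V} {r : ℕ} (c : G.edgeSet → Fin r) (k : ℕ) : Prop :=
  ∃ T : Fin k → G.Subgraph, (∀ j, IsMonoTree c (T j)) ∧ ∀ v, ∃ j, v ∈ (T j).verts

/-- The vertex set is the disjoint union of the vertex sets of `k` monochromatic trees. -/
def Partitionable {V : Type} {G : SimpleGraph V} {r : ℕ} (c : G.edgeSet → Fin r) (k : ℕ) : Prop :=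
  ∃ T : Fin k → G.Subgraph, (∀ j, IsMonoTree c (T j)) ∧ ∀ v, ∃! j, v ∈ (T j).verts

/-- `tc_r(G)`: the least `k` such that for every `r`-colouring of the edges of `G` the vertex set
is the union of the vertex sets of at most `k` monochromatic trees. -/
noncomputable def tc {V : Type} (r : ℕ) (G : SimpleGraph V) : ℕ :=
  sInf {k | ∀ c : G.edgeSet → Fin r, ∃ j ≤ k, Coverable c j}

/-- `tp_r(G)`: the least `k` such that for every `r`-colouring of the edges of `G` the vertex set
is the disjoint union of the vertex sets of at most `k` monochromatic trees. -/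
noncomputable def tp {V : Type} (r : ℕ) (G : SimpleGraph V) : ℕ :=
  sInf {k | ∀ c : G.edgeSet → Fin r, ∃ j ≤ k, Partitionable c j}

/-! ### Building monochromatic trees -/

/-- The spanning subgraph of the edges of colour `i`. -/
def colourGraph {V : Type} {G : SimpleGraph V} {r : ℕ} (c : G.edgeSet → Fin r) (i : Fin r) :
    SimpleGraph V where
  Adj x y := ∃ h : G.Adj x y, c ⟨s(x, y), h⟩ = i
  symm := ⟨by
    rintro x y ⟨h, hc⟩
    refine ⟨h.symm, ?_⟩
    rw [← hc]
    congr 2
    exact Sym2.eq_swap⟩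
  loopless := ⟨by
    rintro x ⟨h, -⟩
    exact G.loopless.irrefl x h⟩

/-- A vertex set which is connected in one colour carries a monochromatic spanning tree. -/
lemma exists_tree {V : Type} [Finite V] {G : SimpleGraph V} {r : ℕ} (c : G.edgeSet → Fin r)
    (i : Fin r) (W : Set V) (hW : ((colourGraph c i).induce W).Connected) :
    ∃ T : G.Subgraph, IsMonoTree c T ∧ T.verts = W := by
  classical
  obtain ⟨T', hT'le, hT'⟩ := hW.exists_isTree_le
  have hadj : ∀ x y : W, T'.Adj x y → (colourGraph c i).Adj (x : V) (y : V) := by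
    intro x y h
    exact hT'le h
  let T : G.Subgraph :=
    { verts := W
      Adj := fun x y => ∃ (hx : x ∈ W) (hy : y ∈ W), T'.Adj ⟨x, hx⟩ ⟨y, hy⟩
      adj_sub := by
        rintro x y ⟨hx, hy, h⟩
        exact (hadj _ _ h).1
      edge_vert := by
        rintro x y ⟨hx, hy, h⟩
        exact hx
      symm := ⟨by
        rintro x y ⟨hx, hy, h⟩
        exact ⟨hy, hx, h.symm⟩⟩ }
  have hTcoe : T.coe = T' := by
    ext ⟨x, hx⟩ ⟨y, hy⟩
    constructor
    · rintro ⟨_, _, h⟩
      exact h
    · intro h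
      exact ⟨hx, hy, h⟩
  refine ⟨T, ⟨by rw [hTcoe]; exact hT', ?_⟩, rfl⟩
  have hcol : ∀ e (he : e ∈ T.edgeSet), c ⟨e, T.edgeSet_subset he⟩ = i := by
    intro e
    induction e using Sym2.ind with
    | _ x y =>
      rintro ⟨hx, hy, h⟩
      exact (hadj _ _ h).2
  intro e he f hf
  rw [hcol e he, hcol f hf]

/-- A centre together with neighbours in colour `i` is connected in colour `i`. -/
lemma star_connected {V : Type} {G : SimpleGraph V} {r : ℕ} (c : G.edgeSet → Fin r)
    (i : Fin r) (W : Set V) (x : V) (hx : x ∈ W)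
    (hW : ∀ y ∈ W, y = x ∨ (colourGraph c i).Adj x y) :
    ((colourGraph c i).induce W).Connected := by
  have key : ∀ y : W, ((colourGraph c i).induce W).Reachable ⟨x, hx⟩ y := by
    rintro ⟨y, hy⟩
    rcases hW y hy with h | h
    · subst h
      exact Reachable.refl _
    · have : ((colourGraph c i).induce W).Adj ⟨x, hx⟩ ⟨y, hy⟩ := h
      exact this.reachable
  have : Nonempty W := ⟨⟨x, hx⟩⟩
  exact ⟨fun a b => (key a).symm.trans (key b)⟩

lemma coverable_of_family {V : Type} {G : SimpleGraph V} {r : ℕ} (c : G.edgeSet → Fin r)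
    {ι : Type} [Fintype ι] (T : ι → G.Subgraph) (hT : ∀ j, IsMonoTree c (T j))
    (hcov : ∀ v, ∃ j, v ∈ (T j).verts) : Coverable c (Fintype.card ι) := by
  refine ⟨fun j => T ((Fintype.equivFin ι).symm j), fun j => hT _, fun v => ?_⟩
  obtain ⟨j, hj⟩ := hcov v
  exact ⟨Fintype.equivFin ι j, by simpa using hj⟩

lemma partitionable_of_family {V : Type} {G : SimpleGraph V} {r : ℕ} (c : G.edgeSet → Fin r)
    {ι : Type} [Fintype ι] (T : ι → G.Subgraph) (hT : ∀ j, IsMonoTree c (T j))
    (hcov : ∀ v, ∃! j, v ∈ (T j).verts) : Partitionable c (Fintype.card ι) := by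
  refine ⟨fun j => T ((Fintype.equivFin ι).symm j), fun j => hT _, fun v => ?_⟩
  obtain ⟨j, hj, huniq⟩ := hcov v
  refine ⟨Fintype.equivFin ι j, by simpa using hj, fun k hk => ?_⟩
  have := huniq _ hk
  rw [← this]
  simp

/-! ### Covers: the bound `2 r - 1` -/

lemma cover_upper {n m r : ℕ} (hr : 1 ≤ r) (hn : 1 ≤ n) (hm : 1 ≤ m)
    (c : (completeBipartiteGraph (Fin n) (Fin m)).edgeSet → Fin r) :
    Coverable c (2 * r - 1) := by
  classical
  let a0 : Fin n := ⟨0, by omega⟩
  let b0 : Fin m := ⟨0, by omega⟩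
  have hab : ∀ (a : Fin n) (b : Fin m),
      (completeBipartiteGraph (Fin n) (Fin m)).Adj (Sum.inl a) (Sum.inr b) := by
    intro a b; simp
  set i0 : Fin r := c ⟨s(Sum.inl a0, Sum.inr b0), hab a0 b0⟩ with hi0
  -- the component of a vertex in a colour
  have hcomp : ∀ p : Fin r × (Fin n ⊕ Fin m),
      ∃ T : (completeBipartiteGraph (Fin n) (Fin m)).Subgraph, IsMonoTree c T ∧
        ∀ w, (colourGraph c p.1).Reachable p.2 w → w ∈ T.verts := by
    intro p
    have h1 := ((colourGraph c p.1).connectedComponentMk p.2).connected_toSimpleGraph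
    obtain ⟨T, hT, hTv⟩ := exists_tree c p.1
      ((colourGraph c p.1).connectedComponentMk p.2).supp h1
    refine ⟨T, hT, fun w hw => ?_⟩
    rw [hTv]
    exact SimpleGraph.ConnectedComponent.sound hw.symm
  choose T hT hTr using hcomp
  let ι := {p : Fin r ⊕ Fin r // p ≠ Sum.inr i0}
  have hcard : Fintype.card ι = 2 * r - 1 := by
    have := Fintype.card_subtype_compl (fun p : Fin r ⊕ Fin r => p = Sum.inr i0)
    simp only [Fintype.card_sum, Fintype.card_fin, Fintype.card_subtype_eq] at this
    change Fintype.card {p : Fin r ⊕ Fin r // ¬ (p = Sum.inr i0)} = _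
    rw [this]; omega
  rw [← hcard]
  refine coverable_of_family c
    (fun p : ι => match p.1 with
      | Sum.inl i => T (i, Sum.inl a0)
      | Sum.inr i => T (i, Sum.inr b0)) ?_ ?_
  · rintro ⟨p | p, hp⟩
    · exact hT _
    · exact hT _
  · rintro (a | b)
    · -- a vertex on the left
      by_cases h : c ⟨s(Sum.inl a, Sum.inr b0), hab a b0⟩ = i0
      · refine ⟨⟨Sum.inl i0, by simp⟩, ?_⟩
        apply hTr (i0, Sum.inl a0)
        have h1 : (colourGraph c i0).Adj (Sum.inl a0) (Sum.inr b0) := ⟨hab _ _, rfl⟩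
        have h2 : (colourGraph c i0).Adj (Sum.inl a) (Sum.inr b0) := ⟨hab _ _, h⟩
        exact h1.reachable.trans h2.symm.reachable
      · refine ⟨⟨Sum.inr (c ⟨s(Sum.inl a, Sum.inr b0), hab a b0⟩), by simpa using h⟩, ?_⟩
        apply hTr (_, Sum.inr b0)
        have h2 : (colourGraph c (c ⟨s(Sum.inl a, Sum.inr b0), hab a b0⟩)).Adj
          (Sum.inl a) (Sum.inr b0) := ⟨hab _ _, rfl⟩
        exact h2.symm.reachable
    · refine ⟨⟨Sum.inl (c ⟨s(Sum.inl a0, Sum.inr b), hab a0 b⟩), by simp⟩, ?_⟩
      apply hTr (_, Sum.inl a0)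
      have h2 : (colourGraph c (c ⟨s(Sum.inl a0, Sum.inr b), hab a0 b⟩)).Adj
          (Sum.inl a0) (Sum.inr b) := ⟨hab _ _, rfl⟩
      exact h2.reachable

/-! ### Partitions: the upper bound -/

lemma exists_good_choice {n m r : ℕ} (hr : 1 ≤ r) (g : Fin n → Fin m → Fin r) :
    ∃ f : Fin n → Fin r,
      r ^ n * (Finset.univ.filter (fun b => ∀ a, g a b ≠ f a)).card ≤ (r - 1) ^ n * m := by
  classical
  by_contra hcon
  push Not at hcon
  have h1 : ∑ f : Fin n → Fin r, (Finset.univ.filter (fun b => ∀ a, g a b ≠ f a)).card =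
      m * (r - 1) ^ n := by
    simp_rw [Finset.card_filter]
    rw [Finset.sum_comm]
    have : ∀ b : Fin m, ∑ f : Fin n → Fin r, (if ∀ a, g a b ≠ f a then 1 else 0) =
        (r - 1) ^ n := by
      intro b
      rw [← Finset.card_filter]
      have : (Finset.univ.filter (fun f : Fin n → Fin r => ∀ a, g a b ≠ f a)) =
          Fintype.piFinset (fun a => Finset.univ.erase (g a b)) := by
        ext f
        simp [Fintype.mem_piFinset, eq_comm]
      rw [this, Fintype.card_piFinset]
      simp
    simp [this]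
  have h2 : ∑ f : Fin n → Fin r, (r - 1) ^ n * m <
      ∑ f : Fin n → Fin r, r ^ n * (Finset.univ.filter (fun b => ∀ a, g a b ≠ f a)).card := by
    apply Finset.sum_lt_sum_of_nonempty
    · exact ⟨fun _ => ⟨0, by omega⟩, Finset.mem_univ _⟩
    · intro f _
      exact hcon f
  have h3 : ∑ f : Fin n → Fin r,
      r ^ n * (Finset.univ.filter (fun b => ∀ a, g a b ≠ f a)).card =
      r ^ n * ∑ f : Fin n → Fin r, (Finset.univ.filter (fun b => ∀ a, g a b ≠ f a)).card :=
    (Finset.mul_sum _ _ _).symm
  rw [h3, h1] at h2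
  simp only [Finset.sum_const, Finset.card_univ, Fintype.card_fun, Fintype.card_fin,
    smul_eq_mul] at h2
  rw [mul_comm ((r - 1) ^ n) m] at h2
  exact lt_irrefl _ h2

lemma partition_upper {n m r : ℕ} (hr : 1 ≤ r)
    (c : (completeBipartiteGraph (Fin n) (Fin m)).edgeSet → Fin r) :
    ∃ j ≤ n + (r - 1) ^ n * m / r ^ n, Partitionable c j := by
  classical
  have hab : ∀ (a : Fin n) (b : Fin m),
      (completeBipartiteGraph (Fin n) (Fin m)).Adj (Sum.inl a) (Sum.inr b) := by
    intro a b; simp
  obtain ⟨f, hf⟩ := exists_good_choice hr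
    (fun a b => c ⟨s(Sum.inl a, Sum.inr b), hab a b⟩)
  set bad : Finset (Fin m) :=
    Finset.univ.filter (fun b => ∀ a, c ⟨s(Sum.inl a, Sum.inr b), hab a b⟩ ≠ f a) with hbad
  have hgood : ∀ b : {b // b ∉ bad}, ∃ a, c ⟨s(Sum.inl a, Sum.inr b.1), hab a b.1⟩ = f a := by
    rintro ⟨b, hb⟩
    simpa [hbad] using hb
  choose g hg using hgood
  -- vertex sets
  let W : (Fin n ⊕ bad) → Set (Fin n ⊕ Fin m) := fun p =>
    match p with
    | Sum.inl a => {v | v = Sum.inl a ∨ ∃ b : {b // b ∉ bad}, g b = a ∧ v = Sum.inr b.1}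
    | Sum.inr b => {Sum.inr b.1}
  have htree : ∀ p, ∃ T : (completeBipartiteGraph (Fin n) (Fin m)).Subgraph,
      IsMonoTree c T ∧ T.verts = W p := by
    rintro (a | b)
    · apply exists_tree c (f a)
      apply star_connected c (f a) _ (Sum.inl a) (Or.inl rfl)
      rintro y (rfl | ⟨b, hb, rfl⟩)
      · exact Or.inl rfl
      · right
        subst hb
        exact ⟨hab _ _, hg b⟩
    · apply exists_tree c ⟨0, by omega⟩
      exact star_connected c _ (W (Sum.inr b)) (Sum.inr b.1) (Set.mem_singleton _)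
        (fun y hy => Or.inl hy)
  choose T hT hTv using htree
  have hpart := partitionable_of_family c T hT (by
    rintro (a | b)
    · refine ⟨Sum.inl a, ?_, ?_⟩
      · simp only [hTv]
        exact Or.inl rfl
      · rintro (a' | b') h
        · simp only [hTv] at h
          rcases h with h | ⟨b, _, h⟩
          · simp only [Sum.inl.injEq] at h
            rw [h]
          · simp at h
        · simp only [hTv] at h
          simp [W] at h
    · by_cases hb : b ∈ bad
      · refine ⟨Sum.inr ⟨b, hb⟩, ?_, ?_⟩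
        · simp only [hTv]
          rfl
        · rintro (a' | b') h
          · simp only [hTv] at h
            rcases h with h | ⟨b1, _, h⟩
            · simp at h
            · simp only [Sum.inr.injEq] at h
              exact absurd (h ▸ hb) b1.2
          · simp only [hTv] at h
            have h' : (Sum.inr b : Fin n ⊕ Fin m) = Sum.inr b'.1 := h
            simp only [Sum.inr.injEq] at h'
            congr 1
            exact Subtype.ext h'.symm
      · refine ⟨Sum.inl (g ⟨b, hb⟩), ?_, ?_⟩
        · simp only [hTv]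
          exact Or.inr ⟨⟨b, hb⟩, rfl, rfl⟩
        · rintro (a' | b') h
          · simp only [hTv] at h
            rcases h with h | ⟨b1, hb1, h⟩
            · simp at h
            · simp only [Sum.inr.injEq] at h
              have : b1 = ⟨b, hb⟩ := Subtype.ext h.symm
              rw [← hb1, this]
          · simp only [hTv] at h
            have h' : (Sum.inr b : Fin n ⊕ Fin m) = Sum.inr b'.1 := h
            simp only [Sum.inr.injEq] at h'
            exact absurd (h' ▸ b'.2) hb)
  refine ⟨_, ?_, hpart⟩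
  simp only [Fintype.card_sum, Fintype.card_fin, Fintype.card_coe]
  apply Nat.add_le_add_left
  rw [Nat.le_div_iff_mul_le (Nat.pow_pos (by omega))]
  rw [mul_comm]
  exact hf


/-! ### Partitions: the lower bound -/

/-- The symmetric function on pairs of vertices behind the colouring. -/
def colFun {n m r : ℕ} (hr : 0 < r) (ψ : Fin m → Fin n → Fin r) :
    (Fin n ⊕ Fin m) → (Fin n ⊕ Fin m) → Fin r
  | Sum.inl a, Sum.inr b => ψ b a
  | Sum.inr b, Sum.inl a => ψ b a
  | _, _ => ⟨0, hr⟩

lemma colFun_symm {n m r : ℕ} (hr : 0 < r) (ψ : Fin m → Fin n → Fin r)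
    (x y : Fin n ⊕ Fin m) : colFun hr ψ x y = colFun hr ψ y x := by
  cases x <;> cases y <;> rfl

/-- The edge colouring of `K_{n,m}` in which the edge `ab` gets the colour `ψ b a`. -/
def col {n m r : ℕ} (hr : 0 < r) (ψ : Fin m → Fin n → Fin r) :
    (completeBipartiteGraph (Fin n) (Fin m)).edgeSet → Fin r :=
  fun e => Sym2.lift ⟨colFun hr ψ, colFun_symm hr ψ⟩ e.1

/-- Every vector occurs at least `⌊m / r^n⌋` times. -/
lemma exists_equitable (n m r : ℕ) (hr : 1 ≤ r) : ∃ ψ : Fin m → Fin n → Fin r,
    ∀ v, m / r ^ n ≤ (Finset.univ.filter (fun b => ψ b = v)).card := by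
  classical
  have hN : 0 < r ^ n := Nat.pow_pos (by omega)
  refine ⟨fun b => finFunctionFinEquiv.symm ⟨b.1 % r ^ n, Nat.mod_lt _ hN⟩, fun v => ?_⟩
  set t := finFunctionFinEquiv v with ht
  have hlt : ∀ i : Fin (m / r ^ n), i.1 * r ^ n + t.1 < m := by
    intro i
    have h1 : (i.1 + 1) * r ^ n ≤ m :=
      (Nat.mul_le_mul_right _ i.2).trans (Nat.div_mul_le_self m (r ^ n))
    have h2 := t.2
    nlinarith
  have hinj : Function.Injective (fun i : Fin (m / r ^ n) => (⟨i.1 * r ^ n + t.1, hlt i⟩ : Fin m)) := by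
    intro i j hij
    simp only [Fin.mk.injEq, Nat.add_right_cancel_iff] at hij
    exact Fin.ext (Nat.eq_of_mul_eq_mul_right hN hij)
  calc m / r ^ n = (Finset.univ : Finset (Fin (m / r ^ n))).card := by simp
    _ = (Finset.univ.image
        (fun i : Fin (m / r ^ n) => (⟨i.1 * r ^ n + t.1, hlt i⟩ : Fin m))).card :=
      (Finset.card_image_of_injective _ hinj).symm
    _ ≤ _ := by
      apply Finset.card_le_card
      intro b hb
      simp only [Finset.mem_image, Finset.mem_univ, true_and] at hb
      obtain ⟨i, rfl⟩ := hb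
      simp only [Finset.mem_filter, Finset.mem_univ, true_and]
      have : (i.1 * r ^ n + t.1) % r ^ n = t.1 := by
        rw [Nat.mul_add_mod_self_right, Nat.mod_eq_of_lt t.2]
      simp only [this, Fin.eta]
      rw [ht]
      simp

lemma partition_lower {n m r : ℕ} (hr : 1 ≤ r) (hn : 1 ≤ n) :
    ∃ c : (completeBipartiteGraph (Fin n) (Fin m)).edgeSet → Fin r,
      ∀ k, Partitionable c k → (r - 1) ^ n * (m / r ^ n) + 1 ≤ k := by
  classical
  obtain ⟨ψ, hψ⟩ := exists_equitable n m r hr
  refine ⟨col (by omega) ψ, ?_⟩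
  rintro k ⟨T, hT, hpart⟩
  have hadjc : ∀ (a : Fin n) (b : Fin m) j (h : (T j).Adj (Sum.inl a) (Sum.inr b))
      (a' : Fin n) (b' : Fin m) (h' : (T j).Adj (Sum.inl a') (Sum.inr b')),
      ψ b a = ψ b' a' := by
    intro a b j h a' b' h'
    have := (hT j).2 s(Sum.inl a, Sum.inr b) h s(Sum.inl a', Sum.inr b') h'
    simpa [col, colFun] using this
  -- the tree of a vertex
  choose ix hix huniq using hpart
  simp only at hix huniq
  -- the colour of the tree of `a`
  have hf : ∀ a : Fin n, ∃ f : Fin r, ∀ b, (T (ix (Sum.inl a))).Adj (Sum.inl a) (Sum.inr b) →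
      ψ b a = f := by
    intro a
    by_cases h : ∃ b, (T (ix (Sum.inl a))).Adj (Sum.inl a) (Sum.inr b)
    · obtain ⟨b, hb⟩ := h
      exact ⟨ψ b a, fun b' hb' => hadjc a b' _ hb' a b hb⟩
    · push Not at h
      exact ⟨⟨0, by omega⟩, fun b hb => absurd hb (h b)⟩
  choose f hf using hf
  set bad : Finset (Fin m) := Finset.univ.filter (fun b => ∀ a, ψ b a ≠ f a) with hbad
  -- many bad vertices
  have hcard : (r - 1) ^ n * (m / r ^ n) ≤ bad.card := by
    have h1 : bad = (Fintype.piFinset (fun a => Finset.univ.erase (f a))).biUnion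
        (fun v => Finset.univ.filter (fun b => ψ b = v)) := by
      ext b
      simp [hbad, Fintype.mem_piFinset]
    rw [h1, Finset.card_biUnion]
    · calc (r - 1) ^ n * (m / r ^ n)
          = ∑ v ∈ Fintype.piFinset (fun a : Fin n => Finset.univ.erase (f a)), m / r ^ n := by
            rw [Finset.sum_const, Fintype.card_piFinset]
            simp
        _ ≤ _ := Finset.sum_le_sum (fun v _ => hψ v)
    · intro u _ v _ huv
      rw [Function.onFun, Finset.disjoint_left]
      intro b hb hb'
      simp only [Finset.mem_filter, Finset.mem_univ, true_and] at hb hb'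
      exact huv (hb.symm.trans hb')
  -- a bad vertex has no edge in its tree
  have hnoedge : ∀ b ∈ bad, ∀ w, ¬ (T (ix (Sum.inr b))).Adj (Sum.inr b) w := by
    rintro b hb (a | b') hadj
    · have ha : Sum.inl a ∈ (T (ix (Sum.inr b))).verts := (T _).edge_vert hadj.symm
      have hidx : ix (Sum.inr b) = ix (Sum.inl a) := huniq _ _ ha
      rw [hidx] at hadj
      have := hf a b hadj.symm
      simp only [hbad, Finset.mem_filter, Finset.mem_univ, true_and] at hb
      exact hb a this
    · have := (T _).adj_sub hadj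
      simp at this
  -- so it is alone in its tree
  have halone : ∀ b ∈ bad, ∀ w ∈ (T (ix (Sum.inr b))).verts, w = Sum.inr b := by
    intro b hb w hw
    have hpre := (hT (ix (Sum.inr b))).1.1.preconnected
    obtain ⟨p⟩ := hpre ⟨Sum.inr b, hix _⟩ ⟨w, hw⟩
    cases p with
    | nil => rfl
    | @cons _ v _ hadj q =>
      exact absurd hadj (hnoedge b hb _)
  -- counting
  let F : Option bad → Fin k := fun o =>
    match o with
    | none => ix (Sum.inl ⟨0, by omega⟩)
    | some b => ix (Sum.inr b.1)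
  have hF : Function.Injective F := by
    rintro (_ | b) (_ | b') h
    · rfl
    · exfalso
      have h' : ix (Sum.inl ⟨0, by omega⟩) = ix (Sum.inr b'.1) := h
      have := halone b'.1 b'.2 (Sum.inl ⟨0, by omega⟩) (h' ▸ hix _)
      simp at this
    · exfalso
      have h' : ix (Sum.inr b.1) = ix (Sum.inl ⟨0, by omega⟩) := h
      have := halone b.1 b.2 (Sum.inl ⟨0, by omega⟩) (by rw [h']; exact hix _)
      simp at this
    · have h' : ix (Sum.inr b.1) = ix (Sum.inr b'.1) := h
      have := halone b'.1 b'.2 (Sum.inr b.1) (h' ▸ hix _)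
      simp only [Sum.inr.injEq] at this
      rw [Subtype.ext this]
  have := Fintype.card_le_of_injective F hF
  simp only [Fintype.card_option, Fintype.card_coe, Fintype.card_fin] at this
  omega

/-! ### The consequences for `tc` and `tp` -/

lemma tc_le {n m r : ℕ} (hr : 1 ≤ r) (hn : 1 ≤ n) (hm : 1 ≤ m) :
    tc r (completeBipartiteGraph (Fin n) (Fin m)) ≤ 2 * r - 1 :=
  Nat.sInf_le (fun c => ⟨2 * r - 1, le_rfl, cover_upper hr hn hm c⟩)

lemma tp_le {n m r : ℕ} (hr : 1 ≤ r) :
    tp r (completeBipartiteGraph (Fin n) (Fin m)) ≤ n + (r - 1) ^ n * m / r ^ n :=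
  Nat.sInf_le (fun c => partition_upper hr c)

lemma le_tp {n m r : ℕ} (hr : 1 ≤ r) (hn : 1 ≤ n) :
    (r - 1) ^ n * (m / r ^ n) + 1 ≤ tp r (completeBipartiteGraph (Fin n) (Fin m)) := by
  obtain ⟨c, hc⟩ := partition_lower (m := m) hr hn
  have hne : {k | ∀ c : (completeBipartiteGraph (Fin n) (Fin m)).edgeSet → Fin r,
      ∃ j ≤ k, Partitionable c j}.Nonempty := ⟨_, fun c => partition_upper hr c⟩
  obtain ⟨j, hj, hpj⟩ := Nat.sInf_mem hne c
  exact (hc j hpj).trans hj

end Pool.Agent.H966R3.TreePart
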