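import Pool.Agent.H966R3.TreePart

/-!
# The value of `tp_r (K_{n,m})` for `m` large
-/

namespace Pool.Agent.H966R3.TreePart

open SimpleGraph

/-- the number of bad vertices for the choice `f` -/
def badCount {n m r : ℕ} (ψ : Fin m → Fin n → Fin r) (f : Fin n → Fin r) : ℕ :=
  (Finset.univ.filter (fun b => ∀ a, ψ b a ≠ f a)).card

lemma sum_badCount {n m r : ℕ} (ψ : Fin m → Fin n → Fin r) :
    ∑ f : Fin n → Fin r, badCount ψ f = m * (r - 1) ^ n := by
  classical
  unfold badCount
  simp_rw [Finset.card_filter]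
  rw [Finset.sum_comm]
  have : ∀ b : Fin m, ∑ f : Fin n → Fin r, (if ∀ a, ψ b a ≠ f a then 1 else 0) =
      (r - 1) ^ n := by
    intro b
    rw [← Finset.card_filter]
    have : (Finset.univ.filter (fun f : Fin n → Fin r => ∀ a, ψ b a ≠ f a)) =
        Fintype.piFinset (fun a => Finset.univ.erase (ψ b a)) := by
      ext f
      simp [Fintype.mem_piFinset, eq_comm]
    rw [this, Fintype.card_piFinset]
    simp
  simp [this]

lemma sum_card_image {n r : ℕ} :
    ∑ f : Fin n → Fin r, (Finset.univ.image f).card + r * (r - 1) ^ n = r * r ^ n := by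
  classical
  have h1 : ∀ f : Fin n → Fin r, (Finset.univ.image f).card =
      ∑ i : Fin r, (if ∃ a, f a = i then 1 else 0) := by
    intro f
    rw [← Finset.card_filter]
    congr 1
    ext i
    simp
  have h2 : ∀ i : Fin r, ∑ f : Fin n → Fin r, (if ∃ a, f a = i then 1 else 0) + (r - 1) ^ n
      = r ^ n := by
    intro i
    rw [← Finset.card_filter]
    have h3 : (r - 1) ^ n = (Finset.univ.filter (fun f : Fin n → Fin r => ¬ ∃ a, f a = i)).card := by
      have : (Finset.univ.filter (fun f : Fin n → Fin r => ¬ ∃ a, f a = i)) =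
          Fintype.piFinset (fun _ => Finset.univ.erase i) := by
        ext f
        simp [Fintype.mem_piFinset]
      rw [this, Fintype.card_piFinset]
      simp
    rw [h3, Finset.card_filter_add_card_filter_not]
    simp
  calc ∑ f : Fin n → Fin r, (Finset.univ.image f).card + r * (r - 1) ^ n
      = ∑ i : Fin r, (∑ f : Fin n → Fin r, (if ∃ a, f a = i then 1 else 0) + (r - 1) ^ n) := by
        rw [Finset.sum_add_distrib, Finset.sum_comm]
        simp_rw [h1]
        simp
    _ = r * r ^ n := by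
        simp_rw [h2]
        simp

/-- The weights which invert the bad counts. -/
lemma weighted_sum {n m r : ℕ} (ψ : Fin m → Fin n → Fin r) (v : Fin n → Fin r) :
    ∑ f : Fin n → Fin r, (∏ a, (1 - ((r : ℤ) - 1) * (if f a = v a then 1 else 0))) *
      (badCount ψ f : ℤ) =
      ((r : ℤ) - 1) ^ n * ((Finset.univ.filter (fun b => ψ b = v)).card : ℤ) := by
  classical
  unfold badCount
  simp_rw [Finset.card_filter]
  push_cast
  simp_rw [Finset.mul_sum]
  rw [Finset.sum_comm]
  refine Finset.sum_congr rfl fun b _ => ?_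
  -- one vertex `b`
  have h1 : ∀ f : Fin n → Fin r, (∏ a, (1 - ((r : ℤ) - 1) * (if f a = v a then 1 else 0))) *
      (if ∀ a, ψ b a ≠ f a then 1 else 0) =
      ∏ a, ((1 - ((r : ℤ) - 1) * (if f a = v a then 1 else 0)) * (if ψ b a ≠ f a then 1 else 0)) := by
    intro f
    rw [Finset.prod_mul_distrib]
    congr 1
    rw [Finset.prod_ite_zero]
    simp
  simp_rw [h1]
  rw [← Fintype.prod_sum (fun a x => (1 - ((r : ℤ) - 1) * (if x = v a then 1 else 0)) *
    (if ψ b a ≠ x then 1 else 0))]
  have h2 : ∀ a : Fin n, ∑ x : Fin r, (1 - ((r : ℤ) - 1) * (if x = v a then 1 else 0)) *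
      (if ψ b a ≠ x then 1 else 0) = ((r : ℤ) - 1) * (if ψ b a = v a then 1 else 0) := by
    intro a
    have h3 : ∀ x : Fin r, (1 - ((r : ℤ) - 1) * (if x = v a then 1 else 0)) *
        (if ψ b a ≠ x then 1 else 0) = (1 - ((r : ℤ) - 1) * (if x = v a then 1 else 0)) -
        (if ψ b a = x then (1 - ((r : ℤ) - 1) * (if x = v a then 1 else 0)) else 0) := by
      intro x
      by_cases h : ψ b a = x
      · simp [h]
      · simp [h]
    simp_rw [h3]
    rw [Finset.sum_sub_distrib, Finset.sum_sub_distrib]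
    simp only [Finset.sum_const, Finset.card_univ, Fintype.card_fin, nsmul_eq_mul, mul_one,
      Finset.sum_ite_eq, Finset.mem_univ, if_true, ← Finset.mul_sum, Finset.sum_ite_eq']
    by_cases h : ψ b a = v a
    · simp [h]
    · simp [h]
  simp_rw [h2]
  rw [Finset.prod_mul_distrib]
  simp only [Finset.prod_const, Finset.card_univ, Fintype.card_fin]
  congr 1
  rw [Finset.prod_ite_zero]
  simp [funext_iff]


lemma sum_weights {n r : ℕ} (v : Fin n → Fin r) :
    ∑ f : Fin n → Fin r, (∏ a, (1 - ((r : ℤ) - 1) * (if f a = v a then 1 else 0))) = 1 := by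
  classical
  rw [← Fintype.prod_sum (fun a x => (1 - ((r : ℤ) - 1) * (if x = v a then 1 else 0)))]
  have h2 : ∀ a : Fin n, ∑ x : Fin r, (1 - ((r : ℤ) - 1) * (if x = v a then 1 else 0)) = 1 := by
    intro a
    rw [Finset.sum_sub_distrib, ← Finset.mul_sum]
    simp
  simp [h2]

lemma neg_le_weight {n r : ℕ} (hr : 2 ≤ r) (v f : Fin n → Fin r) :
    0 ≤ (∏ a, (1 - ((r : ℤ) - 1) * (if f a = v a then 1 else 0))) + ((r : ℤ) - 1) ^ n := by
  have h1 : |∏ a, (1 - ((r : ℤ) - 1) * (if f a = v a then 1 else 0))| ≤ ((r : ℤ) - 1) ^ n := by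
    rw [Finset.abs_prod]
    calc ∏ a, |1 - ((r : ℤ) - 1) * (if f a = v a then 1 else 0)|
        ≤ ∏ _a : Fin n, ((r : ℤ) - 1) := by
          apply Finset.prod_le_prod
          · intro a _
            exact abs_nonneg _
          · intro a _
            have hr' : (2 : ℤ) ≤ r := by exact_mod_cast hr
            rw [abs_le]
            split_ifs
            · constructor <;> linarith
            · constructor <;> linarith
      _ = ((r : ℤ) - 1) ^ n := by simp
  have := (abs_le.mp h1).1
  linarith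

/-- the arithmetic at the end of `exists_choice_of_rare` -/
lemma arith_aux (R C r n m N β : ℤ) (hC1 : 1 ≤ C) (hCR : C ≤ R) (hr : 2 ≤ r) (hn : 0 ≤ n)
    (h1 : β * (1 + C * R) ≤ C * N + C * (m * C)) (hN : N ≤ r - 1)
    (h2 : R * (r - n) + C * (m - r) + 1 ≤ R * β) (h3 : 4 * (n + r) * R ^ 2 ≤ m) : False := by
  have hR1 : 1 ≤ R := hC1.trans hCR
  have hCRpos : 1 ≤ C * R := by nlinarith
  have e1 : R * (β * (1 + C * R)) ≤ R * (C * N + C * (m * C)) :=
    mul_le_mul_of_nonneg_left h1 (by linarith)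
  have e2 : (R * (r - n) + C * (m - r) + 1) * (1 + C * R) ≤ R * β * (1 + C * R) :=
    mul_le_mul_of_nonneg_right h2 (by linarith)
  have e3 : R * (C * N) ≤ R * (C * (r - 1)) :=
    mul_le_mul_of_nonneg_left (mul_le_mul_of_nonneg_left hN (by linarith)) (by linarith)
  -- the main inequality
  have e4 : C * m < R * (C * (r - 1)) + C * r * (1 + C * R) + R * (n - r) * (1 + C * R) := by
    nlinarith
  have hle : 1 + C * R ≤ 2 * (C * R) := by linarith
  have e5 : C * r * (1 + C * R) ≤ C * r * (2 * (C * R)) :=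
    mul_le_mul_of_nonneg_left hle (by nlinarith)
  have e6 : C * r * (2 * (C * R)) ≤ C * r * (2 * (R * R)) := by
    apply mul_le_mul_of_nonneg_left _ (by nlinarith)
    nlinarith
  have e7 : R * (n - r) * (1 + C * R) ≤ R * n * (1 + C * R) := by
    have : 0 ≤ R * r * (1 + C * R) := by positivity
    nlinarith
  have e8 : R * n * (1 + C * R) ≤ R * n * (2 * (C * R)) :=
    mul_le_mul_of_nonneg_left hle (by positivity)
  have e9 : R * (C * (r - 1)) ≤ C * (R ^ 2 * r) := by
    have h : R * (r - 1) ≤ R ^ 2 * r := by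
      have : R * 1 ≤ R * R := mul_le_mul_of_nonneg_left hR1 (by linarith)
      nlinarith
    calc R * (C * (r - 1)) = C * (R * (r - 1)) := by ring
      _ ≤ C * (R ^ 2 * r) := mul_le_mul_of_nonneg_left h (by linarith)
  have e10 : C * m < C * (R ^ 2 * (3 * r + 2 * n)) := by
    calc C * m < R * (C * (r - 1)) + C * r * (1 + C * R) + R * (n - r) * (1 + C * R) := e4
      _ ≤ C * (R ^ 2 * r) + C * r * (2 * (R * R)) + R * n * (2 * (C * R)) := by linarith
      _ = C * (R ^ 2 * (3 * r + 2 * n)) := by ring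
  have e11 : m < R ^ 2 * (3 * r + 2 * n) := lt_of_mul_lt_mul_left e10 (by linarith)
  have e12 : R ^ 2 * (3 * r + 2 * n) ≤ 4 * (n + r) * R ^ 2 := by
    have : 0 ≤ R ^ 2 * (r + 2 * n) := by positivity
    nlinarith
  linarith

/-- If some vector is rare, then some choice has few bad vertices. -/
lemma exists_choice_of_rare {n m r : ℕ} (hr : 2 ≤ r) (hm : 4 * (n + r) * (r ^ n) ^ 2 ≤ m)
    (ψ : Fin m → Fin n → Fin r) (v : Fin n → Fin r)
    (hv : (Finset.univ.filter (fun b => ψ b = v)).card < r) :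
    ∃ f : Fin n → Fin r, n + badCount ψ f ≤ r + (r - 1) ^ n * (m - r) / r ^ n := by
  classical
  by_contra hcon
  push Not at hcon
  have hN : 0 < r ^ n := Nat.pow_pos (by omega)
  have hrm : r ≤ m := by
    have h1 : r * 1 ≤ 4 * (n + r) * (r ^ n) ^ 2 :=
      Nat.mul_le_mul (by omega) (Nat.pow_pos hN)
    omega
  set F := (r - 1) ^ n * (m - r) / r ^ n with hF
  have hFlt : (r - 1) ^ n * (m - r) < r ^ n * (F + 1) := by
    rw [hF]
    have := Nat.lt_mul_div_succ ((r - 1) ^ n * (m - r)) hN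
    exact this
  set β : ℤ := (r : ℤ) + F + 1 - n with hβ
  have hb : ∀ f, β ≤ (badCount ψ f : ℤ) := by
    intro f
    have := hcon f
    have h' : ((r + F : ℕ) : ℤ) < ((n + badCount ψ f : ℕ) : ℤ) := by exact_mod_cast this
    push_cast at h'
    rw [hβ]
    linarith
  set w : (Fin n → Fin r) → ℤ :=
    fun f => ∏ a, (1 - ((r : ℤ) - 1) * (if f a = v a then 1 else 0)) with hw
  set C : ℤ := ((r : ℤ) - 1) ^ n with hC
  have hcast : ((r - 1 : ℕ) : ℤ) = (r : ℤ) - 1 := by
    rw [Nat.cast_sub (by omega)]; simp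
  have h1 : β * (1 + C * (r : ℤ) ^ n) ≤
      C * ((Finset.univ.filter (fun b => ψ b = v)).card : ℤ) + C * (m * C) := by
    have e1 : ∑ f, β * (w f + C) ≤ ∑ f, (w f + C) * (badCount ψ f : ℤ) := by
      apply Finset.sum_le_sum
      intro f _
      rw [mul_comm β]
      exact mul_le_mul_of_nonneg_left (hb f) (neg_le_weight hr v f)
    have e2 : ∑ f, β * (w f + C) = β * (1 + C * (r : ℤ) ^ n) := by
      rw [← Finset.mul_sum, Finset.sum_add_distrib, sum_weights v]
      simp [mul_comm]
    have e3 : ∑ f, (w f + C) * (badCount ψ f : ℤ) =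
        C * ((Finset.univ.filter (fun b => ψ b = v)).card : ℤ) + C * (m * C) := by
      have e4 : ∑ f, (badCount ψ f : ℤ) = (m : ℤ) * C := by
        have := sum_badCount ψ
        have h' : ((∑ f, badCount ψ f : ℕ) : ℤ) = ((m * (r - 1) ^ n : ℕ) : ℤ) := by
          exact_mod_cast this
        push_cast at h'
        rw [h', hC, hcast]
      simp_rw [add_mul]
      rw [Finset.sum_add_distrib, weighted_sum ψ v, ← Finset.mul_sum, e4]
    rw [← e2, ← e3]
    exact e1
  have h2 : (r : ℤ) ^ n * ((r : ℤ) - n) + C * ((m : ℤ) - r) + 1 ≤ (r : ℤ) ^ n * β := by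
    have h' : (((r - 1) ^ n * (m - r) : ℕ) : ℤ) < ((r ^ n * (F + 1) : ℕ) : ℤ) := by
      exact_mod_cast hFlt
    push_cast [Nat.cast_sub hrm, hcast] at h'
    rw [hβ]
    rw [← hC] at h'
    nlinarith
  have hC1 : 1 ≤ C := by
    rw [hC]
    apply one_le_pow₀
    have : (2 : ℤ) ≤ r := by exact_mod_cast hr
    linarith
  have hCR : C ≤ (r : ℤ) ^ n := by
    rw [hC]
    apply pow_le_pow_left₀
    · have : (2 : ℤ) ≤ r := by exact_mod_cast hr
      linarith
    · linarith
  refine arith_aux ((r : ℤ) ^ n) C r n m _ β hC1 hCR (by exact_mod_cast hr) (by positivity) h1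
    ?_ h2 ?_
  · have : (((Finset.univ.filter (fun b => ψ b = v)).card : ℕ) : ℤ) < (r : ℤ) := by
      exact_mod_cast hv
    linarith
  · have h' : ((4 * (n + r) * (r ^ n) ^ 2 : ℕ) : ℤ) ≤ (m : ℤ) := by exact_mod_cast hm
    push_cast at h'
    exact h'

/-- Some choice has small total cost. -/
lemma exists_choice_total {n m r : ℕ} (hr : 1 ≤ r) (hrm : r ≤ m) (ψ : Fin m → Fin n → Fin r) :
    ∃ f : Fin n → Fin r, (Finset.univ.image f).card + badCount ψ f ≤
      r + (r - 1) ^ n * (m - r) / r ^ n := by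
  classical
  have hN : 0 < r ^ n := Nat.pow_pos (by omega)
  by_contra hcon
  push Not at hcon
  have hsum : ∑ f : Fin n → Fin r, ((Finset.univ.image f).card + badCount ψ f) =
      r * r ^ n + (r - 1) ^ n * (m - r) := by
    have h1 := sum_card_image (n := n) (r := r)
    have h2 := sum_badCount ψ
    rw [Finset.sum_add_distrib, h2]
    have h3 : m * (r - 1) ^ n = (r - 1) ^ n * (m - r) + r * (r - 1) ^ n := by
      obtain ⟨k, rfl⟩ : ∃ k, m = k + r := ⟨m - r, by omega⟩
      rw [Nat.add_sub_cancel]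
      ring
    omega
  have hlt : ∑ f : Fin n → Fin r, (r + (r - 1) ^ n * (m - r) / r ^ n + 1) ≤
      ∑ f : Fin n → Fin r, ((Finset.univ.image f).card + badCount ψ f) :=
    Finset.sum_le_sum (fun f _ => hcon f)
  rw [hsum] at hlt
  simp only [Finset.sum_const, Finset.card_univ, Fintype.card_fun, Fintype.card_fin,
    smul_eq_mul] at hlt
  have := Nat.lt_mul_div_succ ((r - 1) ^ n * (m - r)) hN
  nlinarith

end Pool.Agent.H966R3.TreePart
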