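import Pool.Agent.H966R3.TreePart2

/-!
# The value of `tp_r (K_{n,m})` for `m` large: constructions
-/

namespace Pool.Agent.H966R3.TreePart

open SimpleGraph

lemma adj_lr {n m : ℕ} (a : Fin n) (b : Fin m) :
    (completeBipartiteGraph (Fin n) (Fin m)).Adj (Sum.inl a) (Sum.inr b) := by
  simp

/-- the colours at `b` -/
def vec {n m r : ℕ} (c : (completeBipartiteGraph (Fin n) (Fin m)).edgeSet → Fin r)
    (b : Fin m) (a : Fin n) : Fin r :=
  c ⟨s(Sum.inl a, Sum.inr b), adj_lr a b⟩

lemma adj_colour {n m r : ℕ} (c : (completeBipartiteGraph (Fin n) (Fin m)).edgeSet → Fin r)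
    {i : Fin r} {a : Fin n} {b : Fin m} (h : vec c b a = i) :
    (colourGraph c i).Adj (Sum.inl a) (Sum.inr b) := ⟨adj_lr a b, h⟩

/-- For every choice of colours `f` there is a partition into `n + bad` trees. -/
lemma partition_choice {n m r : ℕ} (hr : 1 ≤ r)
    (c : (completeBipartiteGraph (Fin n) (Fin m)).edgeSet → Fin r) (f : Fin n → Fin r) :
    Partitionable c (n + badCount (vec c) f) := by
  classical
  set bad : Finset (Fin m) :=
    Finset.univ.filter (fun b => ∀ a, vec c b a ≠ f a) with hbad
  have hgood : ∀ b : {b // b ∉ bad}, ∃ a, vec c b.1 a = f a := by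
    rintro ⟨b, hb⟩
    simpa [hbad] using hb
  choose g hg using hgood
  let W : (Fin n ⊕ bad) → Set (Fin n ⊕ Fin m) := fun p =>
    match p with
    | Sum.inl a => {v | v = Sum.inl a ∨ ∃ b : {b // b ∉ bad}, g b = a ∧ v = Sum.inr b.1}
    | Sum.inr b => {Sum.inr b.1}
  have htree : ∀ p, ∃ T : (completeBipartiteGraph (Fin n) (Fin m)).Subgraph,
      IsMonoTree c T ∧ T.verts = W p := by
    rintro (a | b)
    · apply exists_tree c (f a)
      apply star_connected c (f a) _ (Sum.inl a) (Or.inl rfl)
      rintro y (rfl | ⟨b, hb, rfl⟩)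
      · exact Or.inl rfl
      · right
        subst hb
        exact adj_colour c (hg b)
    · apply exists_tree c ⟨0, by omega⟩
      exact star_connected c _ (W (Sum.inr b)) (Sum.inr b.1) (Set.mem_singleton _)
        (fun y hy => Or.inl hy)
  choose T hT hTv using htree
  have hpart := partitionable_of_family c T hT (by
    rintro (a | b)
    · refine ⟨Sum.inl a, ?_, ?_⟩
      · simp only [hTv]
        exact Or.inl rfl
      · rintro (a' | b') h
        · simp only [hTv] at h
          rcases h with h | ⟨b, _, h⟩
          · simp only [Sum.inl.injEq] at h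
            rw [h]
          · simp at h
        · simp only [hTv] at h
          simp [W] at h
    · by_cases hb : b ∈ bad
      · refine ⟨Sum.inr ⟨b, hb⟩, ?_, ?_⟩
        · simp only [hTv]
          rfl
        · rintro (a' | b') h
          · simp only [hTv] at h
            rcases h with h | ⟨b1, _, h⟩
            · simp at h
            · simp only [Sum.inr.injEq] at h
              exact absurd (h ▸ hb) b1.2
          · simp only [hTv] at h
            have h' : (Sum.inr b : Fin n ⊕ Fin m) = Sum.inr b'.1 := h
            simp only [Sum.inr.injEq] at h'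
            congr 1
            exact Subtype.ext h'.symm
      · refine ⟨Sum.inl (g ⟨b, hb⟩), ?_, ?_⟩
        · simp only [hTv]
          exact Or.inr ⟨⟨b, hb⟩, rfl, rfl⟩
        · rintro (a' | b') h
          · simp only [hTv] at h
            rcases h with h | ⟨b1, hb1, h⟩
            · simp at h
            · simp only [Sum.inr.injEq] at h
              have : b1 = ⟨b, hb⟩ := Subtype.ext h.symm
              rw [← hb1, this]
          · simp only [hTv] at h
            have h' : (Sum.inr b : Fin n ⊕ Fin m) = Sum.inr b'.1 := h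
            simp only [Sum.inr.injEq] at h'
            exact absurd (h' ▸ b'.2) hb)
  simp only [Fintype.card_sum, Fintype.card_fin, Fintype.card_coe] at hpart
  exact hpart

/-- If the vector `f` occurs at least `r` times there is a partition into
`|im f| + bad` trees. -/
lemma partition_choice_conn {n m r : ℕ} (hr : 1 ≤ r)
    (c : (completeBipartiteGraph (Fin n) (Fin m)).edgeSet → Fin r) (f : Fin n → Fin r)
    (hf : r ≤ (Finset.univ.filter (fun b => vec c b = f)).card) :
    Partitionable c ((Finset.univ.image f).card + badCount (vec c) f) := by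
  classical
  set bad : Finset (Fin m) :=
    Finset.univ.filter (fun b => ∀ a, vec c b a ≠ f a) with hbad
  -- centres
  obtain ⟨β⟩ : Nonempty (Fin r ↪ {b // vec c b = f}) := by
    apply Function.Embedding.nonempty_of_card_le
    rw [Fintype.card_fin, Fintype.card_subtype]
    exact hf
  set I := Finset.univ.image f with hI
  -- the class of a good vertex
  have hcls : ∀ b : {b // b ∉ bad}, ∃ i : I, (β i.1).1 = b.1 ∨
      ((∀ j : I, (β j.1).1 ≠ b.1) ∧ ∃ a, f a = i.1 ∧ vec c b.1 a = i.1) := by
    rintro ⟨b, hb⟩
    by_cases h : ∃ j : I, (β j.1).1 = b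
    · obtain ⟨j, hj⟩ := h
      exact ⟨j, Or.inl hj⟩
    · push Not at h
      have : ∃ a, vec c b a = f a := by simpa [hbad] using hb
      obtain ⟨a, ha⟩ := this
      exact ⟨⟨f a, Finset.mem_image_of_mem _ (Finset.mem_univ a)⟩, Or.inr ⟨h, a, rfl, ha⟩⟩
  choose cls hcls using hcls
  let W : (I ⊕ bad) → Set (Fin n ⊕ Fin m) := fun p =>
    match p with
    | Sum.inl i => {v | (∃ a, f a = i.1 ∧ v = Sum.inl a) ∨
        ∃ b : {b // b ∉ bad}, cls b = i ∧ v = Sum.inr b.1}
    | Sum.inr b => {Sum.inr b.1}
  -- the centres are good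
  have hIne : ∀ i : I, ∃ a, f a = i.1 := by
    rintro ⟨i, hi⟩
    simpa [hI] using hi
  have hβgood : ∀ i : I, (β i.1).1 ∉ bad := by
    intro i hi
    obtain ⟨a, ha⟩ := hIne i
    simp only [hbad, Finset.mem_filter, Finset.mem_univ, true_and] at hi
    exact hi a (congrFun (β i.1).2 a)
  have hβcls : ∀ i : I, cls ⟨(β i.1).1, hβgood i⟩ = i := by
    intro i
    rcases hcls ⟨(β i.1).1, hβgood i⟩ with h | ⟨h, _⟩
    · simp only at h
      have h2 := β.injective (Subtype.ext h)
      exact Subtype.ext h2
    · exact absurd rfl (h i)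
  have htree : ∀ p, ∃ T : (completeBipartiteGraph (Fin n) (Fin m)).Subgraph,
      IsMonoTree c T ∧ T.verts = W p := by
    rintro (i | b)
    · apply exists_tree c i.1
      -- connectivity through the centre `β i`
      have hcent : (Sum.inr (β i.1).1 : Fin n ⊕ Fin m) ∈ W (Sum.inl i) :=
        Or.inr ⟨⟨_, hβgood i⟩, hβcls i, rfl⟩
      have hA : ∀ a (ha : f a = i.1), ∃ h : (Sum.inl a : Fin n ⊕ Fin m) ∈ W (Sum.inl i),
          ((colourGraph c i.1).induce (W (Sum.inl i))).Reachable ⟨_, hcent⟩ ⟨Sum.inl a, h⟩ := by
        intro a ha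
        refine ⟨Or.inl ⟨a, ha, rfl⟩, ?_⟩
        have hv : vec c (β i.1).1 a = i.1 := by
          rw [(β i.1).2, ha]
        have : ((colourGraph c i.1).induce (W (Sum.inl i))).Adj ⟨_, hcent⟩
            ⟨Sum.inl a, Or.inl ⟨a, ha, rfl⟩⟩ := (adj_colour c hv).symm
        exact this.reachable
      have key : ∀ y : W (Sum.inl i),
          ((colourGraph c i.1).induce (W (Sum.inl i))).Reachable ⟨_, hcent⟩ y := by
        rintro ⟨y, hy⟩
        rcases hy with ⟨a, ha, rfl⟩ | ⟨b, hb, rfl⟩
        · exact (hA a ha).2
        · rcases hcls b with h | ⟨_, a, ha, hva⟩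
          · rw [hb] at h
            have : (⟨Sum.inr b.1, Or.inr ⟨b, hb, rfl⟩⟩ : W (Sum.inl i)) = ⟨_, hcent⟩ := by
              apply Subtype.ext
              simp only
              rw [h]
            rw [this]
          · rw [hb] at ha hva
            obtain ⟨hmem, hreach⟩ := hA a ha
            have : ((colourGraph c i.1).induce (W (Sum.inl i))).Adj ⟨Sum.inl a, hmem⟩
                ⟨Sum.inr b.1, Or.inr ⟨b, hb, rfl⟩⟩ := adj_colour c hva
            exact hreach.trans this.reachable
      have : Nonempty (W (Sum.inl i)) := ⟨⟨_, hcent⟩⟩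
      exact ⟨fun x y => (key x).symm.trans (key y)⟩
    · apply exists_tree c ⟨0, by omega⟩
      exact star_connected c _ (W (Sum.inr b)) (Sum.inr b.1) (Set.mem_singleton _)
        (fun y hy => Or.inl hy)
  choose T hT hTv using htree
  have hpart := partitionable_of_family c T hT (by
    rintro (a | b)
    · refine ⟨Sum.inl ⟨f a, Finset.mem_image_of_mem _ (Finset.mem_univ a)⟩, ?_, ?_⟩
      · simp only [hTv]
        exact Or.inl ⟨a, rfl, rfl⟩
      · rintro (i | b') h
        · simp only [hTv] at h
          rcases h with ⟨a', ha', h⟩ | ⟨b, _, h⟩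
          · simp only [Sum.inl.injEq] at h
            subst h
            congr 1
            exact Subtype.ext ha'.symm
          · simp at h
        · simp only [hTv] at h
          simp [W] at h
    · by_cases hb : b ∈ bad
      · refine ⟨Sum.inr ⟨b, hb⟩, ?_, ?_⟩
        · simp only [hTv]
          rfl
        · rintro (i | b') h
          · simp only [hTv] at h
            rcases h with ⟨a', _, h⟩ | ⟨b1, _, h⟩
            · simp at h
            · simp only [Sum.inr.injEq] at h
              exact absurd (h ▸ hb) b1.2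
          · simp only [hTv] at h
            have h' : (Sum.inr b : Fin n ⊕ Fin m) = Sum.inr b'.1 := h
            simp only [Sum.inr.injEq] at h'
            congr 1
            exact Subtype.ext h'.symm
      · refine ⟨Sum.inl (cls ⟨b, hb⟩), ?_, ?_⟩
        · simp only [hTv]
          exact Or.inr ⟨⟨b, hb⟩, rfl, rfl⟩
        · rintro (i | b') h
          · simp only [hTv] at h
            rcases h with ⟨a', _, h⟩ | ⟨b1, hb1, h⟩
            · simp at h
            · simp only [Sum.inr.injEq] at h
              have : b1 = ⟨b, hb⟩ := Subtype.ext h.symm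
              rw [← hb1, this]
          · simp only [hTv] at h
            have h' : (Sum.inr b : Fin n ⊕ Fin m) = Sum.inr b'.1 := h
            simp only [Sum.inr.injEq] at h'
            exact absurd (h' ▸ b'.2) hb)
  simp only [Fintype.card_sum, Fintype.card_coe] at hpart
  exact hpart

lemma tp_le_large {n m r : ℕ} (hr : 2 ≤ r) (hm : 4 * (n + r) * (r ^ n) ^ 2 ≤ m) :
    tp r (completeBipartiteGraph (Fin n) (Fin m)) ≤ r + (r - 1) ^ n * (m - r) / r ^ n := by
  classical
  have hrm : r ≤ m := by
    have h1 : r * 1 ≤ 4 * (n + r) * (r ^ n) ^ 2 :=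
      Nat.mul_le_mul (by omega) (Nat.pow_pos (Nat.pow_pos (by omega)))
    omega
  refine Nat.sInf_le (fun c => ?_)
  by_cases h : ∀ v, r ≤ (Finset.univ.filter (fun b => vec c b = v)).card
  · obtain ⟨f, hf⟩ := exists_choice_total (by omega) hrm (vec c)
    exact ⟨_, hf, partition_choice_conn (by omega) c f (h f)⟩
  · push Not at h
    obtain ⟨v, hv⟩ := h
    obtain ⟨f, hf⟩ := exists_choice_of_rare hr hm (vec c) v hv
    exact ⟨_, hf, partition_choice (by omega) c f⟩

end Pool.Agent.H966R3.TreePart
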