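import Pool.Agent.H966R3.TreePart3

/-!
# The value of `tp_r (K_{n,m})` for `m` large: the lower bound
-/

namespace Pool.Agent.H966R3.TreePart

open SimpleGraph

lemma le_badCount {n m r q : ℕ} (ψ : Fin m → Fin n → Fin r)
    (hψ : ∀ v, q ≤ (Finset.univ.filter (fun b => ψ b = v)).card) (f : Fin n → Fin r) :
    (r - 1) ^ n * q ≤ badCount ψ f := by
  classical
  unfold badCount
  have h1 : (Finset.univ.filter (fun b => ∀ a, ψ b a ≠ f a)) =
      (Fintype.piFinset (fun a => Finset.univ.erase (f a))).biUnion
        (fun v => Finset.univ.filter (fun b => ψ b = v)) := by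
    ext b
    simp [Fintype.mem_piFinset]
  rw [h1, Finset.card_biUnion]
  · calc (r - 1) ^ n * q
        = ∑ v ∈ Fintype.piFinset (fun a : Fin n => Finset.univ.erase (f a)), q := by
          rw [Finset.sum_const, Fintype.card_piFinset]
          simp
      _ ≤ _ := Finset.sum_le_sum (fun v _ => hψ v)
  · intro u _ v _ huv
    rw [Function.onFun, Finset.disjoint_left]
    intro b hb hb'
    simp only [Finset.mem_filter, Finset.mem_univ, true_and] at hb hb'
    exact huv (hb.symm.trans hb')

/-- In every partition of the coloured graph there is a choice `f` such that the number of trees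
is at least `|im f| + bad`. -/
lemma choice_of_partition {n m r : ℕ} (hr : 1 ≤ r) (ψ : Fin m → Fin n → Fin r) (k : ℕ)
    (h : Partitionable (col (show 0 < r by omega) ψ) k) :
    ∃ f : Fin n → Fin r, (Finset.univ.image f).card + badCount ψ f ≤ k := by
  classical
  obtain ⟨T, hT, hpart⟩ := h
  have hadjc : ∀ (a : Fin n) (b : Fin m) j (h : (T j).Adj (Sum.inl a) (Sum.inr b))
      (a' : Fin n) (b' : Fin m) (h' : (T j).Adj (Sum.inl a') (Sum.inr b')),
      ψ b a = ψ b' a' := by
    intro a b j h a' b' h'
    have := (hT j).2 s(Sum.inl a, Sum.inr b) h s(Sum.inl a', Sum.inr b') h'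
    simpa [col, colFun] using this
  choose ix hix huniq using hpart
  simp only at hix huniq
  -- the colour of a tree
  have hg : ∀ j : Fin k, ∃ i : Fin r, ∀ a b, (T j).Adj (Sum.inl a) (Sum.inr b) → ψ b a = i := by
    intro j
    by_cases h : ∃ a b, (T j).Adj (Sum.inl a) (Sum.inr b)
    · obtain ⟨a, b, hab⟩ := h
      exact ⟨ψ b a, fun a' b' h' => hadjc a' b' j h' a b hab⟩
    · push Not at h
      exact ⟨⟨0, by omega⟩, fun a b hab => absurd hab (h a b)⟩
  choose g hg using hg
  set f : Fin n → Fin r := fun a => g (ix (Sum.inl a)) with hf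
  refine ⟨f, ?_⟩
  set bad : Finset (Fin m) := Finset.univ.filter (fun b => ∀ a, ψ b a ≠ f a) with hbad
  have hnoedge : ∀ b ∈ bad, ∀ w, ¬ (T (ix (Sum.inr b))).Adj (Sum.inr b) w := by
    rintro b hb (a | b') hadj
    · have ha : Sum.inl a ∈ (T (ix (Sum.inr b))).verts := (T _).edge_vert hadj.symm
      have hidx : ix (Sum.inr b) = ix (Sum.inl a) := huniq _ _ ha
      have := hg _ a b hadj.symm
      rw [hidx] at this
      simp only [hbad, Finset.mem_filter, Finset.mem_univ, true_and] at hb
      exact hb a this
    · have := (T _).adj_sub hadj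
      simp at this
  have halone : ∀ b ∈ bad, ∀ w ∈ (T (ix (Sum.inr b))).verts, w = Sum.inr b := by
    intro b hb w hw
    have hpre := (hT (ix (Sum.inr b))).1.1.preconnected
    obtain ⟨p⟩ := hpre ⟨Sum.inr b, hix _⟩ ⟨w, hw⟩
    cases p with
    | nil => rfl
    | @cons _ v _ hadj q =>
      exact absurd hadj (hnoedge b hb _)
  -- representatives of the colours
  have hrep : ∀ i : (Finset.univ.image f : Finset (Fin r)), ∃ a, f a = i.1 := by
    rintro ⟨i, hi⟩
    simpa using hi
  choose rep hrep using hrep
  let F : ((Finset.univ.image f : Finset (Fin r)) ⊕ bad) → Fin k := fun o =>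
    match o with
    | Sum.inl i => ix (Sum.inl (rep i))
    | Sum.inr b => ix (Sum.inr b.1)
  have hF : Function.Injective F := by
    rintro (i | b) (i' | b') h
    · have h' : ix (Sum.inl (rep i)) = ix (Sum.inl (rep i')) := h
      have h2 : f (rep i) = f (rep i') := by
        simp only [hf]
        rw [h']
      rw [hrep, hrep] at h2
      rw [Subtype.ext h2]
    · exfalso
      have h' : ix (Sum.inl (rep i)) = ix (Sum.inr b'.1) := h
      have := halone b'.1 b'.2 (Sum.inl (rep i)) (h' ▸ hix _)
      simp at this
    · exfalso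
      have h' : ix (Sum.inr b.1) = ix (Sum.inl (rep i')) := h
      have := halone b.1 b.2 (Sum.inl (rep i')) (by rw [h']; exact hix _)
      simp at this
    · have h' : ix (Sum.inr b.1) = ix (Sum.inr b'.1) := h
      have := halone b'.1 b'.2 (Sum.inr b.1) (h' ▸ hix _)
      simp only [Sum.inr.injEq] at this
      rw [Subtype.ext this]
  have := Fintype.card_le_of_injective F hF
  simp only [Fintype.card_sum, Fintype.card_coe, Fintype.card_fin] at this
  exact this

/-- The colour vectors of the extremal colouring: the `r` constant vectors followed by an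
equitable family. -/
lemma exists_vectors {n m r : ℕ} (hr : 1 ≤ r) (hm : r ≤ m) :
    ∃ ψ : Fin m → Fin n → Fin r, ∀ f : Fin n → Fin r,
      r + (r - 1) ^ n * ((m - r) / r ^ n) ≤ (Finset.univ.image f).card + badCount ψ f := by
  classical
  obtain ⟨ψ0, hψ0⟩ := exists_equitable n (m - r) r hr
  let ψ : Fin m → Fin n → Fin r := fun b =>
    if h : b.1 < r then (fun _ => ⟨b.1, h⟩) else ψ0 ⟨b.1 - r, by omega⟩
  refine ⟨ψ, fun f => ?_⟩
  have h0 := le_badCount ψ0 hψ0 f
  have h1 : (r - (Finset.univ.image f).card) + badCount ψ0 f ≤ badCount ψ f := by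
    have hc : Fintype.card {i : Fin r // i ∉ Finset.univ.image f} =
        r - (Finset.univ.image f).card := by
      rw [Fintype.card_subtype_compl, Fintype.card_fin, Fintype.card_coe]
    have hc0 : Fintype.card {b : Fin (m - r) // ∀ a, ψ0 b a ≠ f a} = badCount ψ0 f := by
      rw [Fintype.card_subtype]
      rfl
    have hc1 : Fintype.card {b : Fin m // ∀ a, ψ b a ≠ f a} = badCount ψ f := by
      rw [Fintype.card_subtype]
      rfl
    rw [← hc, ← hc0, ← hc1, ← Fintype.card_sum]
    let G : ({i : Fin r // i ∉ Finset.univ.image f} ⊕ {b : Fin (m - r) // ∀ a, ψ0 b a ≠ f a}) →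
        {b : Fin m // ∀ a, ψ b a ≠ f a} := fun o =>
      match o with
      | Sum.inl i => ⟨⟨i.1.1, by have := i.1.2; omega⟩, by
          intro a ha
          have h2 := i.1.2
          simp only [ψ, h2, dif_pos] at ha
          apply i.2
          rw [Finset.mem_image]
          exact ⟨a, Finset.mem_univ _, ha.symm⟩⟩
      | Sum.inr b => ⟨⟨b.1.1 + r, by have := b.1.2; omega⟩, by
          intro a ha
          have h2 : ¬ (b.1.1 + r < r) := by omega
          simp only [ψ, h2, dif_neg, not_false_eq_true, Nat.add_sub_cancel] at ha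
          exact b.2 a ha⟩
    apply Fintype.card_le_of_injective G
    rintro (i | b) (i' | b') h
    · have h' : i.1.1 = i'.1.1 := by
        have := congrArg (fun x => x.1.1) h
        simpa [G] using this
      congr 1
      exact Subtype.ext (Fin.ext h')
    · exfalso
      have h' : i.1.1 = b'.1.1 + r := by
        have := congrArg (fun x => x.1.1) h
        simpa [G] using this
      have := i.1.2
      omega
    · exfalso
      have h' : b.1.1 + r = i'.1.1 := by
        have := congrArg (fun x => x.1.1) h
        simpa [G] using this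
      have := i'.1.2
      omega
    · have h' : b.1.1 = b'.1.1 := by
        have := congrArg (fun x => x.1.1) h
        simpa [G] using this
      congr 1
      exact Subtype.ext (Fin.ext h')
  have h2 : (Finset.univ.image f).card ≤ r := by
    have := Finset.card_le_univ (Finset.univ.image f)
    simpa using this
  omega

lemma le_tp_sharp {n m r : ℕ} (hr : 1 ≤ r) (hm : r ≤ m) :
    r + (r - 1) ^ n * ((m - r) / r ^ n) ≤ tp r (completeBipartiteGraph (Fin n) (Fin m)) := by
  obtain ⟨ψ, hψ⟩ := exists_vectors (n := n) hr hm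
  have hne : {k | ∀ c : (completeBipartiteGraph (Fin n) (Fin m)).edgeSet → Fin r,
      ∃ j ≤ k, Partitionable c j}.Nonempty := ⟨_, fun c => partition_upper hr c⟩
  obtain ⟨j, hj, hpj⟩ := Nat.sInf_mem hne (col (show 0 < r by omega) ψ)
  obtain ⟨f, hf⟩ := choice_of_partition hr ψ j hpj
  exact ((hψ f).trans hf).trans hj

end Pool.Agent.H966R3.TreePart
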